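import Mathlib

set_option autoImplicit false

namespace Pool.Agent.Helper878.PM

open scoped commutatorElement

/-- group element as an element of the group ring -/
noncomputable def u {A : Type} [CommGroup A] (a : A) : MonoidAlgebra ℤ A := MonoidAlgebra.of ℤ A a

section U
variable {A : Type} [CommGroup A]

theorem u_mul (a b : A) : u (a * b) = u a * u b := map_mul _ _ _
theorem u_one : u (1 : A) = 1 := map_one _
theorem u_inv_mul (a : A) : u a⁻¹ * u a = 1 := by rw [← u_mul]; simp [u_one]
theorem u_mul_inv (a : A) : u a * u a⁻¹ = 1 := by rw [← u_mul]; simp [u_one]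
theorem u_single (a : A) : u a = MonoidAlgebra.single a (1 : ℤ) := rfl

end U

/-- affine group -/
@[ext] structure Aff (A M : Type) where
  a : A
  v : M

namespace Aff

variable {A M : Type} [CommGroup A] [AddCommGroup M] [Module (MonoidAlgebra ℤ A) M]

noncomputable instance : Mul (Aff A M) := ⟨fun x y => ⟨x.a * y.a, x.v + u x.a • y.v⟩⟩
noncomputable instance : One (Aff A M) := ⟨⟨1, 0⟩⟩
noncomputable instance : Inv (Aff A M) := ⟨fun x => ⟨x.a⁻¹, -(u x.a⁻¹ • x.v)⟩⟩

@[simp] theorem mul_a (x y : Aff A M) : (x * y).a = x.a * y.a := rfl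
@[simp] theorem mul_v (x y : Aff A M) : (x * y).v = x.v + u x.a • y.v := rfl
@[simp] theorem one_a : (1 : Aff A M).a = 1 := rfl
@[simp] theorem one_v : (1 : Aff A M).v = 0 := rfl
@[simp] theorem inv_a (x : Aff A M) : (x⁻¹).a = x.a⁻¹ := rfl
@[simp] theorem inv_v (x : Aff A M) : (x⁻¹).v = -(u x.a⁻¹ • x.v) := rfl

noncomputable instance : Group (Aff A M) where
  mul_assoc x y z := by
    ext1
    · simp [mul_assoc]
    · simp only [mul_a, mul_v, smul_add, u_mul, mul_smul, add_assoc]
  one_mul x := by
    ext1
    · simp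
    · simp [u_one]
  mul_one x := by
    ext1
    · simp
    · simp
  inv_mul_cancel x := by
    ext1
    · simp
    · simp

/-- projection -/
noncomputable def pr : Aff A M →* A where
  toFun := Aff.a
  map_one' := rfl
  map_mul' _ _ := rfl

@[simp] theorem pr_apply (x : Aff A M) : pr x = x.a := rfl

/-- functoriality -/
noncomputable def map {M' : Type} [AddCommGroup M'] [Module (MonoidAlgebra ℤ A) M']
    (f : M →ₗ[MonoidAlgebra ℤ A] M') : Aff A M →* Aff A M' where
  toFun x := ⟨x.a, f x.v⟩
  map_one' := by ext1 <;> simp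
  map_mul' x y := by ext1 <;> simp

theorem conj_v (x : Aff A M) (k : M) : (x * ⟨1, k⟩ * x⁻¹ : Aff A M) = ⟨1, u x.a • k⟩ := by
  ext1
  · simp
  · simp only [mul_a, mul_v, inv_v, mul_one, smul_neg, smul_smul, u_mul_inv, one_smul]
    abel

theorem comm_v (x y : Aff A M) : (x * y * x⁻¹ * y⁻¹ : Aff A M)
    = ⟨1, (u x.a - 1) • y.v - (u y.a - 1) • x.v⟩ := by
  ext1
  · simp
  · simp only [mul_a, mul_v, inv_v, smul_neg, smul_smul, inv_a, sub_smul, one_smul]
    have h1 : u (x.a * y.a) * u x.a⁻¹ = u y.a := by rw [← u_mul]; congr 1; simp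
    have h2 : u (x.a * y.a * x.a⁻¹) * u y.a⁻¹ = 1 := by
      rw [← u_mul, ← u_one (A := A)]; congr 1; simp
    rw [h1, h2, one_smul]
    abel

end Aff

/-- A group with a homomorphism to a commutative group with commuting kernel is metabelian. -/
theorem metab_of_hom {G A : Type} [Group G] [CommGroup A] (f : G →* A)
    (h : ∀ x y, f x = 1 → f y = 1 → x * y = y * x) : derivedSeries G 2 = ⊥ := by
  have h1 : derivedSeries G 1 ≤ f.ker := by
    rw [derivedSeries_one]
    exact Abelianization.commutator_subset_ker f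
  rw [derivedSeries_succ, eq_bot_iff, Subgroup.commutator_le]
  intro x hx y hy
  rw [Subgroup.mem_bot, commutatorElement_eq_one_iff_mul_comm]
  exact h x y (MonoidHom.mem_ker.mp (h1 hx)) (MonoidHom.mem_ker.mp (h1 hy))

theorem comm_of_metab {G : Type} [Group G] (h : derivedSeries G 2 = ⊥) {x y : G}
    (hx : x ∈ commutator G) (hy : y ∈ commutator G) : x * y = y * x := by
  rw [derivedSeries_succ, derivedSeries_one] at h
  have : ⁅x, y⁆ ∈ (⊥ : Subgroup G) := by
    rw [← h]; exact Subgroup.commutator_mem_commutator hx hy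
  rw [Subgroup.mem_bot, commutatorElement_eq_one_iff_mul_comm] at this
  exact this

theorem metab_Aff {A M : Type} [CommGroup A] [AddCommGroup M] [Module (MonoidAlgebra ℤ A) M] :
    derivedSeries (Aff A M) 2 = ⊥ := by
  refine metab_of_hom (Aff.pr) ?_
  intro x y hx hy
  rw [Aff.pr_apply] at hx hy
  ext1
  · simp [mul_comm]
  · simp only [Aff.mul_v, hx, hy, u_one, one_smul]
    abel

/-- additive extension of a function on the group -/
noncomputable def ext {A M' : Type} [CommGroup A] [AddCommGroup M'] (s : A → M') :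
    MonoidAlgebra ℤ A →+ M' :=
  (Finsupp.liftAddHom (fun a => (zmultiplesHom M') (s a))).comp
    (MonoidAlgebra.coeffAddEquiv).toAddMonoidHom

theorem ext_single {A M' : Type} [CommGroup A] [AddCommGroup M'] (s : A → M') (a : A) (n : ℤ) :
    ext s (MonoidAlgebra.single a n) = n • s a := by
  simp [ext, MonoidAlgebra.coeffAddEquiv]

theorem ext_u {A M' : Type} [CommGroup A] [AddCommGroup M'] (s : A → M') (a : A) :
    ext s (u a) = s a := by
  rw [u_single, ext_single, one_smul]

theorem single_eq_zsmul {A : Type} [CommGroup A] (a : A) (n : ℤ) :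
    (MonoidAlgebra.single a n : MonoidAlgebra ℤ A) = n • u a := by
  rw [u_single, MonoidAlgebra.smul_single]; simp

/-- regrouping lemma -/
theorem regroup {A Y M' : Type} [CommGroup A] [AddCommGroup M'] (yb : Y → A)
    (d : (Y →₀ MonoidAlgebra ℤ A) →ₗ[MonoidAlgebra ℤ A] MonoidAlgebra ℤ A)
    (hd : ∀ y, d (Finsupp.single y 1) = u (yb y) - 1)
    (Φ : (Y →₀ MonoidAlgebra ℤ A) →+ M') (T : AddSubgroup M') (s : A → M')
    (h : ∀ a y, Φ (Finsupp.single y (u a)) + s a - s (a * yb y) ∈ T) :
    ∀ f, Φ f - ext s (d f) ∈ T := by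
  have key : ∀ y (r : MonoidAlgebra ℤ A), Φ (Finsupp.single y r) - ext s (d (Finsupp.single y r)) ∈ T := by
    intro y r
    induction r using MonoidAlgebra.induction_linear with
    | zero => simp
    | add f g hf hg =>
      have := T.add_mem hf hg
      rw [Finsupp.single_add, map_add, map_add, map_add]
      convert this using 1
      abel
    | single a n =>
      rw [single_eq_zsmul]
      have e1 : (Finsupp.single y (n • u a) : Y →₀ MonoidAlgebra ℤ A) = n • Finsupp.single y (u a) := by
        rw [Finsupp.smul_single]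
      have e2 : d (Finsupp.single y (u a)) = u (a * yb y) - u a := by
        have : (Finsupp.single y (u a) : Y →₀ MonoidAlgebra ℤ A) = u a • Finsupp.single y 1 := by
          rw [Finsupp.smul_single, smul_eq_mul, mul_one]
        rw [this, map_smul, hd, smul_eq_mul, mul_sub, mul_one, u_mul]
      rw [e1, map_zsmul, map_zsmul, map_zsmul, ← smul_sub]
      refine T.zsmul_mem ?_ n
      rw [e2, map_sub, ext_u, ext_u]
      convert h a y using 1
      abel
  intro f
  induction f using Finsupp.induction_linear with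
  | zero => simp
  | add f g hf hg =>
    have := T.add_mem hf hg
    rw [map_add, map_add, map_add]
    convert this using 1
    abel
  | single y r => exact key y r

end Pool.Agent.Helper878.PM
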