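import Mathlib
import Pool.Agent.Helper878.PM.Aff

set_option autoImplicit false

namespace Pool.Agent.Helper878.PM

open scoped commutatorElement

/-- The group of pairs `(a,v)` with `d v = a - 1`. -/
noncomputable def PS {A M : Type} [CommGroup A] [AddCommGroup M] [Module (MonoidAlgebra ℤ A) M]
    (d : M →ₗ[MonoidAlgebra ℤ A] MonoidAlgebra ℤ A) : Subgroup (Aff A M) where
  carrier := {x | d x.v = u x.a - 1}
  one_mem' := by simp [u_one]
  mul_mem' := by
    intro x y hx hy
    simp only [Set.mem_ofPred_eq] at hx hy ⊢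
    rw [Aff.mul_v, map_add, map_smul, hx, hy, Aff.mul_a, u_mul, smul_eq_mul]
    ring
  inv_mem' := by
    intro x hx
    simp only [Set.mem_ofPred_eq] at hx ⊢
    rw [Aff.inv_v, map_neg, map_smul, hx, Aff.inv_a, smul_eq_mul, mul_sub, u_inv_mul]
    ring

theorem mem_PS {A M : Type} [CommGroup A] [AddCommGroup M] [Module (MonoidAlgebra ℤ A) M]
    {d : M →ₗ[MonoidAlgebra ℤ A] MonoidAlgebra ℤ A} {x : Aff A M} :
    x ∈ PS d ↔ d x.v = u x.a - 1 := Iff.rfl

section Gen

variable {A Y : Type} [CommGroup A] {yb : Y → A}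
  {d : (Y →₀ MonoidAlgebra ℤ A) →ₗ[MonoidAlgebra ℤ A] MonoidAlgebra ℤ A}

theorem gen_le (hgen : Subgroup.closure (Set.range yb) = ⊤)
    (hd : ∀ y, d (Finsupp.single y 1) = u (yb y) - 1)
    (S : Subgroup (Aff A (Y →₀ MonoidAlgebra ℤ A)))
    (hS : ∀ y, (⟨yb y, Finsupp.single y 1⟩ : Aff A (Y →₀ MonoidAlgebra ℤ A)) ∈ S) : PS d ≤ S := by
  have hsurj : ∀ a : A, ∃ x ∈ S, x.a = a := by
    have h1 : (⊤ : Subgroup A) ≤ S.map Aff.pr := by
      rw [← hgen, Subgroup.closure_le]
      rintro _ ⟨y, rfl⟩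
      exact ⟨_, hS y, rfl⟩
    intro a
    obtain ⟨x, hx, hxa⟩ := h1 (Subgroup.mem_top a)
    exact ⟨x, hx, hxa⟩
  choose s hs hsa using hsurj
  let T : AddSubgroup (Y →₀ MonoidAlgebra ℤ A) :=
    { carrier := {f | (⟨1, f⟩ : Aff A (Y →₀ MonoidAlgebra ℤ A)) ∈ S}
      zero_mem' := S.one_mem
      add_mem' := by
        intro f g hf hg
        have h1 := S.mul_mem hf hg
        have h2 : (⟨1, f + g⟩ : Aff A (Y →₀ MonoidAlgebra ℤ A)) = ⟨1, f⟩ * ⟨1, g⟩ := by
          ext1
          · simp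
          · simp [u_one]
        show (⟨1, f + g⟩ : Aff A (Y →₀ MonoidAlgebra ℤ A)) ∈ S
        rw [h2]; exact h1
      neg_mem' := by
        intro f hf
        have h1 := S.inv_mem hf
        have h2 : (⟨1, -f⟩ : Aff A (Y →₀ MonoidAlgebra ℤ A)) = (⟨1, f⟩)⁻¹ := by
          ext1
          · simp
          · simp [u_one]
        show (⟨1, -f⟩ : Aff A (Y →₀ MonoidAlgebra ℤ A)) ∈ S
        rw [h2]; exact h1 }
  have hT : ∀ f, f ∈ T ↔ (⟨1, f⟩ : Aff A (Y →₀ MonoidAlgebra ℤ A)) ∈ S := fun f => Iff.rfl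
  have hreg := regroup yb d hd (AddMonoidHom.id _) T (fun a => (s a).v) (by
    intro a y
    rw [hT]
    have := S.mul_mem (S.mul_mem (hs a) (hS y)) (S.inv_mem (hs (a * yb y)))
    convert this using 1
    ext1
    · simp [hsa]
    · simp only [AddMonoidHom.id_apply, Aff.mul_v, Aff.mul_a, Aff.inv_v, hsa, smul_neg, smul_smul,
        u_mul_inv, one_smul]
      rw [Finsupp.smul_single, smul_eq_mul, mul_one]
      abel)
  intro x hx
  rw [mem_PS] at hx
  have h1 := hreg x.v
  rw [hT, AddMonoidHom.id_apply, hx, map_sub, ext_u, ← u_one, ext_u] at h1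
  have h2 := S.mul_mem (S.mul_mem h1 (S.inv_mem (hs 1))) (hs x.a)
  convert h2 using 1
  ext1
  · simp [hsa]
  · simp only [Aff.mul_v, Aff.mul_a, Aff.inv_v, Aff.inv_a, hsa, u_one, one_smul, inv_one, mul_one]
    abel

/-- generator -/
noncomputable def cP (hd : ∀ y, d (Finsupp.single y 1) = u (yb y) - 1) (y : Y) : PS d :=
  ⟨⟨yb y, Finsupp.single y 1⟩, hd y⟩

/-- parametrisation by words -/
noncomputable def muw (hd : ∀ y, d (Finsupp.single y 1) = u (yb y) - 1) : FreeGroup Y →* PS d :=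
  FreeGroup.lift (cP hd)

theorem muw_surj (hgen : Subgroup.closure (Set.range yb) = ⊤)
    (hd : ∀ y, d (Finsupp.single y 1) = u (yb y) - 1) : Function.Surjective (muw hd) := by
  have h := gen_le hgen hd ((muw hd).range.map (PS d).subtype) (by
    intro y
    refine ⟨cP hd y, ⟨FreeGroup.of y, ?_⟩, rfl⟩
    simp [muw])
  intro x
  obtain ⟨z, ⟨w, hw⟩, hz⟩ := h x.2
  refine ⟨w, ?_⟩
  rw [hw]
  exact Subtype.ext hz

theorem hom_ext_PS (hgen : Subgroup.closure (Set.range yb) = ⊤)
    (hd : ∀ y, d (Finsupp.single y 1) = u (yb y) - 1) {G : Type} [Group G] {f g : PS d →* G}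
    (h : ∀ y, f (cP hd y) = g (cP hd y)) : f = g := by
  have h1 : f.comp (muw hd) = g.comp (muw hd) := by
    ext y
    simp [muw, h]
  exact (MonoidHom.cancel_right (muw_surj hgen hd)).mp h1

theorem hom_exists (hgen : Subgroup.closure (Set.range yb) = ⊤)
    (hd : ∀ y, d (Finsupp.single y 1) = u (yb y) - 1) {G : Type} [Group G]
    (hG : derivedSeries G 2 = ⊥) (γ : Y → G) (gb : A →* Abelianization G)
    (hgb : ∀ y, gb (yb y) = Abelianization.of (γ y)) :
    ∃ h : PS d →* G, ∀ y, h (cP hd y) = γ y := by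
  have hs : ∀ a, ∃ g : G, Abelianization.of g = gb a := fun a =>
    QuotientGroup.mk_surjective (gb a)
  choose g hg using hs
  let _ : CommGroup (commutator G) :=
    { (inferInstance : Group (commutator G)) with
      mul_comm := fun x y => Subtype.ext (comm_of_metab hG x.2 y.2) }
  have hmem : ∀ a y, g a * γ y * (g (a * yb y))⁻¹ ∈ commutator G := by
    intro a y
    rw [← Abelianization.ker_of, MonoidHom.mem_ker, map_mul, map_mul, map_inv, hg, hg, map_mul, hgb]
    simp
  let D : (Y →₀ MonoidAlgebra ℤ A) →+ Additive (commutator G) :=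
    Finsupp.liftAddHom (fun y => ext (fun a => Additive.ofMul ⟨_, hmem a y⟩))
  have hD : ∀ a y, D (Finsupp.single y (u a)) = Additive.ofMul ⟨_, hmem a y⟩ := by
    intro a y
    simp only [D, Finsupp.liftAddHom_apply_single, ext_u]
  set μ := muw hd
  set ν : FreeGroup Y →* G := FreeGroup.lift γ
  have key : ∀ w a, ((Additive.toMul (D (u a • (μ w : Aff A (Y →₀ MonoidAlgebra ℤ A)).v)) :
      commutator G) : G) = g a * ν w * (g (a * (μ w : Aff A (Y →₀ MonoidAlgebra ℤ A)).a))⁻¹ := by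
    intro w
    induction w using FreeGroup.induction_on with
    | C1 =>
      intro a
      simp
    | of y =>
      intro a
      have h1 : (μ (FreeGroup.of y) : Aff A (Y →₀ MonoidAlgebra ℤ A)) = ⟨yb y, Finsupp.single y 1⟩ := by
        simp [μ, muw, cP]
      have h2 : ν (FreeGroup.of y) = γ y := by simp [ν]
      rw [h1, h2]
      simp only [Finsupp.smul_single, smul_eq_mul, mul_one]
      rw [hD]; rfl
    | inv_of y ih =>
      intro a
      have h1 : (μ (FreeGroup.of y) : Aff A (Y →₀ MonoidAlgebra ℤ A)) = ⟨yb y, Finsupp.single y 1⟩ := by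
        simp [μ, muw, cP]
      have h := ih (a * (yb y)⁻¹)
      rw [map_inv, Subgroup.coe_inv, Aff.inv_v, Aff.inv_a, h1, smul_neg, smul_smul, ← u_mul, map_neg,
        map_inv]
      rw [h1] at h
      simp only at h ⊢
      rw [toMul_neg, Subgroup.coe_inv, h]
      simp [mul_assoc]
    | mul w1 w2 h1 h2 =>
      intro a
      have e1 := h1 a
      have e2 := h2 (a * (μ w1 : Aff A (Y →₀ MonoidAlgebra ℤ A)).a)
      rw [map_mul, Subgroup.coe_mul, Aff.mul_v, Aff.mul_a, smul_add, smul_smul, ← u_mul, map_add,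
        toMul_add, Subgroup.coe_mul, e1, e2, map_mul]
      simp [mul_assoc]
  have hker : μ.ker ≤ ν.ker := by
    intro w hw
    rw [MonoidHom.mem_ker] at hw ⊢
    have := key w 1
    rw [hw] at this
    simp only [Subgroup.coe_one, Aff.one_v, smul_zero, map_zero, Aff.one_a, mul_one, toMul_zero] at this
    have h2 : g 1 * ν w * (g 1)⁻¹ = 1 := this.symm
    rw [mul_inv_eq_one] at h2
    exact mul_left_cancel (by rw [h2, mul_one])
  have hμ : Function.Surjective μ := muw_surj hgen hd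
  refine ⟨(MonoidHom.liftOfSurjective μ hμ) ⟨ν, hker⟩, ?_⟩
  intro y
  have h1 : μ (FreeGroup.of y) = cP hd y := by simp [μ, muw]
  have h2 : ν (FreeGroup.of y) = γ y := by simp [ν]
  rw [← h1, MonoidHom.liftOfRightInverse_comp_apply]
  exact h2

end Gen

end Pool.Agent.Helper878.PM
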