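import Mathlib
import Pool.Agent.Helper878.PM.Magnus

set_option autoImplicit false

namespace Pool.Agent.Helper878.PM

open scoped commutatorElement

section

variable {A Y : Type} [CommGroup A]

/-- the retract -/
noncomputable def PQ (d : (Y →₀ MonoidAlgebra ℤ A) →ₗ[MonoidAlgebra ℤ A] MonoidAlgebra ℤ A)
    (E : (Y →₀ MonoidAlgebra ℤ A) →ₗ[MonoidAlgebra ℤ A] (Y →₀ MonoidAlgebra ℤ A)) :
    Subgroup (Aff A (Y →₀ MonoidAlgebra ℤ A)) where
  carrier := {x | d x.v = u x.a - 1 ∧ E x.v = x.v}
  one_mem' := by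
    refine ⟨?_, ?_⟩
    · simp [u_one]
    · simp
  mul_mem' := by
    intro x y hx hy
    refine ⟨(PS d).mul_mem hx.1 hy.1, ?_⟩
    rw [Aff.mul_v, map_add, map_smul, hx.2, hy.2]
  inv_mem' := by
    intro x hx
    refine ⟨(PS d).inv_mem hx.1, ?_⟩
    rw [Aff.inv_v, map_neg, map_smul, hx.2]

variable {d : (Y →₀ MonoidAlgebra ℤ A) →ₗ[MonoidAlgebra ℤ A] MonoidAlgebra ℤ A}
  {E : (Y →₀ MonoidAlgebra ℤ A) →ₗ[MonoidAlgebra ℤ A] (Y →₀ MonoidAlgebra ℤ A)}

theorem mem_PQ {x : Aff A (Y →₀ MonoidAlgebra ℤ A)} :
    x ∈ PQ d E ↔ d x.v = u x.a - 1 ∧ E x.v = x.v := Iff.rfl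

theorem PQ_le : PQ d E ≤ PS d := fun _ hx => hx.1

/-- retraction -/
noncomputable def rho (hE : ∀ f, E (E f) = E f) (hdE : ∀ f, d (E f) = d f) : PS d →* PQ d E where
  toFun x := ⟨⟨x.1.a, E x.1.v⟩, by rw [mem_PQ, hdE, hE]; exact ⟨x.2, rfl⟩⟩
  map_one' := by
    apply Subtype.ext
    ext1
    · rfl
    · simp
  map_mul' x y := by
    apply Subtype.ext
    ext1
    · rfl
    · simp

theorem rho_incl (hE : ∀ f, E (E f) = E f) (hdE : ∀ f, d (E f) = d f) (x : PQ d E) :
    rho hE hdE (Subgroup.inclusion PQ_le x) = x := by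
  apply Subtype.ext
  ext1
  · rfl
  · exact (mem_PQ.mp x.2).2

end

section

variable {V B : Type}

/-- images of the basis elements -/
noncomputable def yy : V ⊕ B → Abelianization (FreeGroup V)
  | Sum.inl v => Abelianization.of (FreeGroup.of v)
  | Sum.inr _ => 1

theorem yy_gen : Subgroup.closure (Set.range (yy (V := V) (B := B))) = ⊤ := by
  rw [eq_top_iff]
  rintro x -
  obtain ⟨w, rfl⟩ := QuotientGroup.mk_surjective x
  change Abelianization.of w ∈ _
  induction w using FreeGroup.induction_on with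
  | C1 => rw [map_one]; exact Subgroup.one_mem _
  | of v => exact Subgroup.subset_closure ⟨Sum.inl v, rfl⟩
  | inv_of v ih => rw [map_inv]; exact Subgroup.inv_mem _ ih
  | mul a b ha hb => rw [map_mul]; exact Subgroup.mul_mem _ ha hb

variable {d : ((V ⊕ B) →₀ MonoidAlgebra ℤ (Abelianization (FreeGroup V)))
    →ₗ[MonoidAlgebra ℤ (Abelianization (FreeGroup V))]
    MonoidAlgebra ℤ (Abelianization (FreeGroup V))}
  {E : ((V ⊕ B) →₀ MonoidAlgebra ℤ (Abelianization (FreeGroup V)))
    →ₗ[MonoidAlgebra ℤ (Abelianization (FreeGroup V))]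
    ((V ⊕ B) →₀ MonoidAlgebra ℤ (Abelianization (FreeGroup V)))}

/-- Lifting property. -/
theorem lift_PQ (hd : ∀ y, d (Finsupp.single y 1) = u (yy y) - 1)
    (hE : ∀ f, E (E f) = E f) (hdE : ∀ f, d (E f) = d f)
    (hB : ∀ b, rho hE hdE (cP hd (Sum.inr b)) ∈ commutator (PQ d E))
    {G H : Type} [Group G] [Group H] (hG : derivedSeries G 2 = ⊥)
    (α : G →* H) (hα : Function.Surjective α) (g : PQ d E →* H) :
    ∃ h : PQ d E →* G, α.comp h = g := by
  have h1 : ∀ v : V, ∃ γ : G, α γ = g (rho hE hdE (cP hd (Sum.inl v))) := fun v => hα _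
  have hcomm : ∀ x ∈ commutator (PQ d E), ∃ γ ∈ commutator G, α γ = g x := by
    intro x hx
    have e1 : g x ∈ (commutator (PQ d E)).map g := ⟨x, hx, rfl⟩
    have e2 : (commutator (PQ d E)).map g ≤ (commutator G).map α := by
      rw [map_commutator_eq, map_commutator_eq]
      refine Subgroup.commutator_mono ?_ ?_ <;>
      · rw [MonoidHom.range_eq_top.mpr hα]; exact le_top
    exact e2 e1
  have h2 : ∀ b : B, ∃ γ ∈ commutator G, α γ = g (rho hE hdE (cP hd (Sum.inr b))) :=
    fun b => hcomm _ (hB b)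
  choose γ1 hγ1 using h1
  choose γ2 hγ2 hγ2' using h2
  obtain ⟨h, hh⟩ := hom_exists yy_gen hd hG (Sum.elim γ1 γ2)
    (Abelianization.lift (FreeGroup.lift (fun v => Abelianization.of (γ1 v)))) (by
      rintro (v | b)
      · simp [yy]
      · simp only [yy, map_one, Sum.elim_inr]
        symm
        rw [← MonoidHom.mem_ker, Abelianization.ker_of]
        exact hγ2 b)
  have hcomp : α.comp h = g.comp (rho hE hdE) := by
    refine hom_ext_PS yy_gen hd ?_
    rintro (v | b)
    · rw [MonoidHom.comp_apply, MonoidHom.comp_apply, hh]; exact hγ1 v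
    · rw [MonoidHom.comp_apply, MonoidHom.comp_apply, hh]; exact hγ2' b
  refine ⟨h.comp (Subgroup.inclusion PQ_le), ?_⟩
  ext x
  have := DFunLike.congr_fun hcomp (Subgroup.inclusion PQ_le x)
  rw [MonoidHom.comp_apply, MonoidHom.comp_apply, rho_incl] at this
  exact this

/-- augmentation -/
noncomputable def aug {A : Type} [CommGroup A] : MonoidAlgebra ℤ A →+* ℤ :=
  (MonoidAlgebra.lift ℤ ℤ A (1 : A →* ℤ)).toRingHom

theorem aug_u {A : Type} [CommGroup A] (a : A) : aug (u a) = 1 := by
  simp [aug, u]

/-- The commutator lemma. -/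
theorem comm_mem (hd : ∀ y, d (Finsupp.single y 1) = u (yy y) - 1)
    (hE : ∀ f, E (E f) = E f) (hdE : ∀ f, d (E f) = d f)
    (κ : (V ⊕ B) →₀ MonoidAlgebra ℤ (Abelianization (FreeGroup V)))
    (h1 : E κ = κ) (h2 : d κ = 0) (h3 : ∀ b, aug (κ (Sum.inr b)) = 0) :
    (⟨1, κ⟩ : Aff (Abelianization (FreeGroup V)) _) ∈ ⁅PQ d E, PQ d E⁆ := by
  -- the generators of the retract
  have hq : ∀ y, (⟨yy y, E (Finsupp.single y 1)⟩ : Aff (Abelianization (FreeGroup V))
      ((V ⊕ B) →₀ MonoidAlgebra ℤ (Abelianization (FreeGroup V)))) ∈ PQ d E := by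
    intro y
    rw [mem_PQ]
    exact ⟨by rw [hdE, hd], hE _⟩
  have hsurj : ∀ a : Abelianization (FreeGroup V), ∃ x ∈ PQ d E, x.a = a := by
    intro a
    have h : (⊤ : Subgroup (Abelianization (FreeGroup V))) ≤ (PQ d E).map Aff.pr := by
      rw [← yy_gen (V := V) (B := B), Subgroup.closure_le]
      rintro _ ⟨y, rfl⟩
      exact ⟨_, hq y, rfl⟩
    obtain ⟨x, hx, hxa⟩ := h (Subgroup.mem_top a)
    exact ⟨x, hx, hxa⟩
  -- conjugation
  have hconj : ∀ x ∈ PQ d E, ∀ z ∈ ⁅PQ d E, PQ d E⁆, x * z * x⁻¹ ∈ ⁅PQ d E, PQ d E⁆ := by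
    intro x hx z hz
    have hz' : z ∈ PQ d E := (Subgroup.commutator_le_self (PQ d E)) hz
    have e1 : x * z * x⁻¹ = ⁅x, z⁆ * z := by
      rw [commutatorElement_def]; group
    rw [e1]
    exact Subgroup.mul_mem _ (Subgroup.commutator_mem_commutator hx hz') hz
  let T : Submodule (MonoidAlgebra ℤ (Abelianization (FreeGroup V)))
      ((V ⊕ B) →₀ MonoidAlgebra ℤ (Abelianization (FreeGroup V))) :=
    { carrier := {f | (⟨1, f⟩ : Aff (Abelianization (FreeGroup V)) _) ∈ ⁅PQ d E, PQ d E⁆}
      zero_mem' := (⁅PQ d E, PQ d E⁆).one_mem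
      add_mem' := by
        intro f g hf hg
        have h1 := (⁅PQ d E, PQ d E⁆).mul_mem hf hg
        have h2 : (⟨1, f + g⟩ : Aff (Abelianization (FreeGroup V))
          ((V ⊕ B) →₀ MonoidAlgebra ℤ (Abelianization (FreeGroup V)))) = ⟨1, f⟩ * ⟨1, g⟩ := by
          ext1
          · simp
          · simp [u_one]
        show (⟨1, f + g⟩ : Aff (Abelianization (FreeGroup V)) _) ∈ ⁅PQ d E, PQ d E⁆
        rw [h2]; exact h1
      smul_mem' := by
        intro r f hf
        show (⟨1, r • f⟩ : Aff (Abelianization (FreeGroup V)) _) ∈ ⁅PQ d E, PQ d E⁆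
        induction r using MonoidAlgebra.induction_linear with
        | zero => rw [zero_smul]; exact Subgroup.one_mem _
        | add r s hr hs =>
          have h1 := Subgroup.mul_mem _ hr hs
          have h2 : (⟨1, (r + s) • f⟩ : Aff (Abelianization (FreeGroup V))
            ((V ⊕ B) →₀ MonoidAlgebra ℤ (Abelianization (FreeGroup V)))) = ⟨1, r • f⟩ * ⟨1, s • f⟩ := by
            ext1
            · simp
            · simp [u_one, add_smul]
          rw [h2]; exact h1
        | single a n =>
          obtain ⟨x, hx, rfl⟩ := hsurj a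
          have h1 := hconj x hx _ hf
          rw [Aff.conj_v] at h1
          have h2 := Subgroup.zpow_mem _ h1 n
          have h3 : ∀ (m : ℤ) (g : (V ⊕ B) →₀ MonoidAlgebra ℤ (Abelianization (FreeGroup V))),
              (⟨1, g⟩ : Aff (Abelianization (FreeGroup V))
              ((V ⊕ B) →₀ MonoidAlgebra ℤ (Abelianization (FreeGroup V)))) ^ m = ⟨1, m • g⟩ := by
            intro m g
            let φ : Multiplicative ((V ⊕ B) →₀ MonoidAlgebra ℤ (Abelianization (FreeGroup V))) →*
                Aff (Abelianization (FreeGroup V))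
                  ((V ⊕ B) →₀ MonoidAlgebra ℤ (Abelianization (FreeGroup V))) :=
              { toFun := fun g => ⟨1, g.toAdd⟩
                map_one' := rfl
                map_mul' := by
                  intro x y
                  ext1
                  · simp
                  · simp [u_one] }
            exact (map_zpow φ (Multiplicative.ofAdd g) m).symm
          rw [h3] at h2
          rw [single_eq_zsmul, smul_assoc]
          exact h2 }
  have hT : ∀ f, f ∈ T ↔ (⟨1, f⟩ : Aff (Abelianization (FreeGroup V)) _) ∈ ⁅PQ d E, PQ d E⁆ :=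
    fun f => Iff.rfl
  -- the span of the second components
  let Q0 : Submodule (MonoidAlgebra ℤ (Abelianization (FreeGroup V)))
      ((V ⊕ B) →₀ MonoidAlgebra ℤ (Abelianization (FreeGroup V))) :=
    Submodule.span _ {q | ∃ a, (⟨a, q⟩ : Aff (Abelianization (FreeGroup V)) _) ∈ PQ d E}
  have hQ0 : ∀ f, E f ∈ Q0 := by
    intro f
    induction f using Finsupp.induction_linear with
    | zero => rw [map_zero]; exact Submodule.zero_mem _
    | add f g hf hg => rw [map_add]; exact Submodule.add_mem _ hf hg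
    | single y r =>
      have : (Finsupp.single y r : (V ⊕ B) →₀ MonoidAlgebra ℤ (Abelianization (FreeGroup V)))
          = r • Finsupp.single y 1 := by rw [Finsupp.smul_single, smul_eq_mul, mul_one]
      rw [this, map_smul]
      exact Submodule.smul_mem _ _ (Submodule.subset_span ⟨_, hq y⟩)
  have hbil : ∀ q ∈ Q0, ∀ q' ∈ Q0, d q • q' - d q' • q ∈ T := by
    intro q hq0 q' hq0'
    induction hq0 using Submodule.span_induction with
    | mem q hqm =>
      obtain ⟨a, ha⟩ := hqm
      induction hq0' using Submodule.span_induction with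
      | mem q' hqm' =>
        obtain ⟨a', ha'⟩ := hqm'
        rw [hT]
        have h := Subgroup.commutator_mem_commutator ha ha'
        rw [commutatorElement_def, Aff.comm_v] at h
        rw [(mem_PQ.mp ha).1, (mem_PQ.mp ha').1]
        exact h
      | zero => simp
      | add x y _ _ hx hy =>
        have := T.add_mem hx hy
        convert this using 1
        rw [map_add, smul_add, add_smul]; abel
      | smul r x _ hx =>
        have := T.smul_mem r hx
        convert this using 1
        rw [map_smul, smul_sub, smul_smul, smul_smul, smul_smul, smul_eq_mul, mul_comm (d q) r]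
    | zero => simp
    | add x y _ _ hx hy =>
      have := T.add_mem hx hy
      convert this using 1
      rw [map_add, smul_add, add_smul]; abel
    | smul r x _ hx =>
      have := T.smul_mem r hx
      convert this using 1
      rw [map_smul, smul_sub, smul_smul, smul_smul, smul_smul, smul_eq_mul, mul_comm (d q') r]
  -- elements of the augmentation ideal
  have haug : ∀ r : MonoidAlgebra ℤ (Abelianization (FreeGroup V)), ∃ t ∈ Q0,
      d t = r - (aug r : ℤ) • (1 : MonoidAlgebra ℤ (Abelianization (FreeGroup V))) := by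
    intro r
    induction r using MonoidAlgebra.induction_linear with
    | zero => exact ⟨0, Submodule.zero_mem _, by simp⟩
    | add r s hr hs =>
      obtain ⟨t, ht, e⟩ := hr
      obtain ⟨t', ht', e'⟩ := hs
      refine ⟨t + t', Submodule.add_mem _ ht ht', ?_⟩
      rw [map_add, e, e', map_add, add_smul]; abel
    | single a n =>
      obtain ⟨x, hx, rfl⟩ := hsurj a
      have hxq : x.v ∈ Q0 := Submodule.subset_span ⟨x.a, hx⟩
      refine ⟨n • x.v, zsmul_mem hxq n, ?_⟩
      rw [map_zsmul, (mem_PQ.mp hx).1, single_eq_zsmul, map_zsmul, aug_u, smul_sub]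
      simp
  -- splitting of κ
  let κB : B →₀ MonoidAlgebra ℤ (Abelianization (FreeGroup V)) :=
    κ.comapDomain Sum.inr Sum.inr_injective.injOn
  let κV : V →₀ MonoidAlgebra ℤ (Abelianization (FreeGroup V)) :=
    κ.comapDomain Sum.inl Sum.inl_injective.injOn
  let LV : (V →₀ MonoidAlgebra ℤ (Abelianization (FreeGroup V)))
      →ₗ[MonoidAlgebra ℤ (Abelianization (FreeGroup V))]
      ((V ⊕ B) →₀ MonoidAlgebra ℤ (Abelianization (FreeGroup V))) := Finsupp.lmapDomain _ _ Sum.inl
  let LB : (B →₀ MonoidAlgebra ℤ (Abelianization (FreeGroup V)))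
      →ₗ[MonoidAlgebra ℤ (Abelianization (FreeGroup V))]
      ((V ⊕ B) →₀ MonoidAlgebra ℤ (Abelianization (FreeGroup V))) := Finsupp.lmapDomain _ _ Sum.inr
  have hsplit : κ = LV κV + LB κB := by
    ext1 y
    rcases y with v | b
    · have e1 : (LV κV) (Sum.inl v) = κV v := Finsupp.mapDomain_apply Sum.inl_injective _ _
      have e2 : (LB κB) (Sum.inl v) = 0 := Finsupp.mapDomain_of_notMem_range _ _ (by simp)
      rw [Finsupp.add_apply, e1, e2, add_zero]; rfl
    · have e1 : (LB κB) (Sum.inr b) = κB b := Finsupp.mapDomain_apply Sum.inr_injective _ _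
      have e2 : (LV κV) (Sum.inr b) = 0 := Finsupp.mapDomain_of_notMem_range _ _ (by simp)
      rw [Finsupp.add_apply, e1, e2, zero_add]; rfl
  have hLB : ∀ f : B →₀ MonoidAlgebra ℤ (Abelianization (FreeGroup V)), d (LB f) = 0 := by
    intro f
    induction f using Finsupp.induction_linear with
    | zero => simp
    | add f g hf hg => rw [map_add, map_add, hf, hg, add_zero]
    | single b r =>
      have : LB (Finsupp.single b r) = r • Finsupp.single (Sum.inr b) 1 := by
        simp [LB, Finsupp.mapDomain_single]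
      rw [this, map_smul, hd]
      simp [yy, u_one]
  have hLBT : ∀ f : B →₀ MonoidAlgebra ℤ (Abelianization (FreeGroup V)), (∀ b, aug (f b) = 0) →
      E (LB f) ∈ T := by
    intro f hf
    have e1 : f = ∑ b ∈ f.support, Finsupp.single b (f b) := (Finsupp.sum_single f).symm
    rw [e1, map_sum, map_sum]
    refine Submodule.sum_mem _ fun b _ => ?_
    have e2 : LB (Finsupp.single b (f b)) = f b • Finsupp.single (Sum.inr b) 1 := by
      simp [LB, Finsupp.mapDomain_single]
    rw [e2, map_smul]
    obtain ⟨t, ht, e3⟩ := haug (f b)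
    rw [hf b, zero_smul, sub_zero] at e3
    have h4 := hbil t ht _ (hQ0 (Finsupp.single (Sum.inr b) 1))
    have e5 : d (E (Finsupp.single (Sum.inr b) 1)) = 0 := by
      rw [hdE, hd]; simp [yy, u_one]
    rw [e5, zero_smul, sub_zero, e3] at h4
    exact h4
  have hLVT : ∀ f : V →₀ MonoidAlgebra ℤ (Abelianization (FreeGroup V)), d (LV f) = 0 →
      E (LV f) ∈ T := by
    let ρ' : FreeGroup V →* PQ d E := FreeGroup.lift (fun v => ⟨_, hq (Sum.inl v)⟩)
    have hρa : ∀ w, (ρ' w).1.a = Abelianization.of w := by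
      intro w
      have : ((Aff.pr.comp (PQ d E).subtype).comp ρ') = Abelianization.of := by
        ext v
        simp [ρ', yy]
      exact DFunLike.congr_fun this w
    have hw : ∀ a : Abelianization (FreeGroup V), ∃ w, Abelianization.of w = a := fun a =>
      QuotientGroup.mk_surjective a
    choose w hw using hw
    have hcommw : ∀ z ∈ commutator (FreeGroup V), (ρ' z).1 ∈ ⁅PQ d E, PQ d E⁆ := by
      intro z hz
      have e1 : ((PQ d E).subtype.comp ρ') z ∈ (commutator (FreeGroup V)).map
        ((PQ d E).subtype.comp ρ') := ⟨z, hz, rfl⟩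
      rw [map_commutator_eq] at e1
      have e2 : ((PQ d E).subtype.comp ρ').range ≤ PQ d E := by
        rintro _ ⟨z, rfl⟩
        exact (ρ' z).2
      exact Subgroup.commutator_mono e2 e2 e1
    have hreg := regroup (fun v : V => (Abelianization.of (FreeGroup.of v) :
        Abelianization (FreeGroup V))) (d.comp LV) (by
        intro v
        have : LV (Finsupp.single v 1) = Finsupp.single (Sum.inl v) 1 := by
          simp [LV, Finsupp.mapDomain_single]
        rw [LinearMap.comp_apply, this, hd]; rfl) ((E.comp LV).toAddMonoidHom) T.toAddSubgroup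
        (fun a => (ρ' (w a)).1.v) (by
        intro a v
        show (E.comp LV) (Finsupp.single v (u a)) + _ - _ ∈ T
        have e0 : LV (Finsupp.single v (u a)) = u a • Finsupp.single (Sum.inl v) 1 := by
          simp [LV, Finsupp.mapDomain_single]
        rw [hT, LinearMap.comp_apply, e0, map_smul]
        have hz : w a * FreeGroup.of v * (w (a * Abelianization.of (FreeGroup.of v)))⁻¹ ∈
            commutator (FreeGroup V) := by
          rw [← Abelianization.ker_of, MonoidHom.mem_ker, map_mul, map_mul, map_inv, hw, hw]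
          simp
        have h5 := hcommw _ hz
        have hv : (ρ' (FreeGroup.of v)).1
            = ⟨Abelianization.of (FreeGroup.of v), E (Finsupp.single (Sum.inl v) 1)⟩ := by
          simp [ρ', yy]
        convert h5 using 1
        rw [map_mul, map_mul, map_inv, Subgroup.coe_mul, Subgroup.coe_mul, Subgroup.coe_inv, hv]
        ext1
        · simp only [Aff.mul_a, Aff.inv_a, hρa, hw]; simp
        · simp only [Aff.mul_v, Aff.mul_a, Aff.inv_v, hρa, hw, smul_neg, smul_smul, u_mul_inv,
            one_smul]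
          abel)
    intro f hf
    have := hreg f
    rw [LinearMap.comp_apply, hf, map_zero, sub_zero] at this
    exact this
  rw [← hT, ← h1, hsplit, map_add]
  refine T.add_mem (hLVT κV ?_) (hLBT κB (fun b => h3 b))
  have := h2
  rw [hsplit, map_add, hLB, add_zero] at this
  exact this

end

end Pool.Agent.Helper878.PM
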