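import Mathlib
import Pool.Agent.Helper878.PM.Proj

set_option autoImplicit false

namespace Pool.Agent.Helper878.PM

/-- variables -/
abbrev Vr := Option (Fin 3 ⊕ (ℕ × Bool))

abbrev AG := Abelianization (FreeGroup Vr)
abbrev RR := MonoidAlgebra ℤ AG
abbrev YY := Vr ⊕ ℕ

/-- the element `a_v - 1` -/
noncomputable def X (v : Vr) : RR := u (Abelianization.of (FreeGroup.of v) : AG) - 1

def vth : Vr := none
def vg (j : Fin 3) : Vr := some (Sum.inl j)
def vst (k : ℕ) (b : Bool) : Vr := some (Sum.inr (k, b))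

noncomputable def et (k : ℕ) (j : Fin 3) : RR := X (vst (5 * k + j) false)
noncomputable def om (k : ℕ) : RR := X (vst (5 * k + 3) false)
noncomputable def vv (k : ℕ) : RR := X (vst (5 * k + 4) false)

/-- the unimodular rows -/
noncomputable def z : ℕ → Fin 3 → RR
  | 0, j => X (vg j)
  | (k + 1), j => ![1 - X vth * ∑ i, et k i * z k i, X vth * om k, vv k] j

theorem z_succ0 (k : ℕ) : z (k + 1) 0 = 1 - X vth * ∑ i, et k i * z k i := rfl
theorem z_succ1 (k : ℕ) : z (k + 1) 1 = X vth * om k := rfl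
theorem z_succ2 (k : ℕ) : z (k + 1) 2 = vv k := rfl

/-- block basis -/
def eb : ℕ → Fin 3 → YY
  | 0, j => Sum.inl (vg j)
  | (k + 1), j => ![Sum.inl (vst k false), Sum.inr k, Sum.inl (vst k true)] j

theorem eb_succ0 (k : ℕ) : eb (k + 1) 0 = Sum.inl (vst k false) := rfl
theorem eb_succ1 (k : ℕ) : eb (k + 1) 1 = Sum.inr k := rfl
theorem eb_succ2 (k : ℕ) : eb (k + 1) 2 = Sum.inl (vst k true) := rfl

/-- values of `phi` on the basis -/
noncomputable def phi0 : YY → (ℕ →₀ RR)
  | Sum.inl none => 0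
  | Sum.inl (some (Sum.inl j)) => Finsupp.single 0 (z 0 j)
  | Sum.inl (some (Sum.inr (k, false))) => Finsupp.single (k + 1) (z (k + 1) 0)
  | Sum.inl (some (Sum.inr (k, true))) => Finsupp.single (k + 1) (z (k + 1) 2)
  | Sum.inr k => Finsupp.single (k + 1) (z (k + 1) 1) + Finsupp.single k 1

noncomputable def phi : (YY →₀ RR) →ₗ[RR] (ℕ →₀ RR) := Finsupp.linearCombination RR phi0

noncomputable def dd : (YY →₀ RR) →ₗ[RR] RR :=
  Finsupp.linearCombination RR (fun y => u (yy y : AG) - 1)

theorem hd_dd (y : YY) : dd (Finsupp.single y 1) = u (yy y : AG) - 1 := by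
  simp [dd]

theorem dd_inl (v : Vr) : dd (Finsupp.single (Sum.inl v) 1) = X v := by
  rw [hd_dd]; rfl

theorem dd_inr (k : ℕ) : dd (Finsupp.single (Sum.inr k) 1) = 0 := by
  rw [hd_dd]; simp [yy, u_one]

theorem phi_single (y : YY) (r : RR) : phi (Finsupp.single y r) = r • phi0 y := by
  simp [phi]

/-- basis vector -/
noncomputable def bb (y : YY) : YY →₀ RR := Finsupp.single y 1

theorem phi_bb (y : YY) : phi (bb y) = phi0 y := by
  rw [bb, phi_single, one_smul]

noncomputable def tau (k : ℕ) : RR :=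
  -(om k * dd (bb (eb (k + 1) 0))) + ∑ j, et k j * dd (bb (eb k j))

noncomputable def base (k : ℕ) : YY →₀ RR :=
  z (k + 1) 0 • bb (eb (k + 1) 1) - z (k + 1) 1 • bb (eb (k + 1) 0)
    + X vth • (∑ j, et k j • bb (eb k j)) - tau k • bb (Sum.inl vth)

noncomputable def psi0 : ℕ → (YY →₀ RR)
  | 0 => base 0
  | (k + 1) => base (k + 1) - (X vth * et (k + 1) 1) • psi0 k

theorem dd_base (k : ℕ) : dd (base k) = 0 := by
  unfold base
  simp only [map_add, map_sub, map_smul, map_sum, smul_eq_mul]
  have h1 : dd (bb (eb (k + 1) 1)) = 0 := dd_inr k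
  have h2 : dd (bb (Sum.inl vth)) = X vth := dd_inl vth
  rw [h1, h2, z_succ1, tau]
  ring

theorem dd_psi0 : ∀ k, dd (psi0 k) = 0
  | 0 => dd_base 0
  | (k + 1) => by rw [psi0, map_sub, map_smul, dd_base, dd_psi0 k]; simp

theorem phi_base0 : phi (base 0) = Finsupp.single 0 1 := by
  unfold base
  simp only [map_add, map_sub, map_smul, map_sum, phi_bb]
  have h1 : phi0 (Sum.inl vth) = 0 := rfl
  have h2 : phi0 (eb (0 + 1) 1) = Finsupp.single 1 (z 1 1) + Finsupp.single 0 1 := rfl
  have h3 : phi0 (eb (0 + 1) 0) = Finsupp.single 1 (z 1 0) := rfl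
  have h4 : ∀ j, phi0 (eb 0 j) = Finsupp.single 0 (z 0 j) := fun j => rfl
  rw [h1, h2, h3]
  simp only [h4, smul_add, Finsupp.smul_single, smul_eq_mul, mul_one, smul_zero, sub_zero]
  rw [← Finsupp.single_finsetSum, Finsupp.smul_single, smul_eq_mul, mul_comm (z (0 + 1) 1) (z 1 0)]
  have h5 : (Finsupp.single 0 (1 : RR) : ℕ →₀ RR) = Finsupp.single 0 (z (0 + 1) 0)
      + Finsupp.single 0 (X vth * ∑ i, et 0 i * z 0 i) := by
    rw [← Finsupp.single_add, z_succ0]; congr 1; ring
  rw [h5]
  abel

theorem phi_base_succ (k : ℕ) : phi (base (k + 1)) = Finsupp.single (k + 1) 1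
    + Finsupp.single k (X vth * et (k + 1) 1) := by
  unfold base
  simp only [map_add, map_sub, map_smul, map_sum, phi_bb]
  have h1 : phi0 (Sum.inl vth) = 0 := rfl
  have h2 : phi0 (eb (k + 1 + 1) 1) = Finsupp.single (k + 1 + 1) (z (k + 1 + 1) 1)
    + Finsupp.single (k + 1) 1 := rfl
  have h3 : phi0 (eb (k + 1 + 1) 0) = Finsupp.single (k + 1 + 1) (z (k + 1 + 1) 0) := rfl
  have h4 : phi0 (eb (k + 1) 0) = Finsupp.single (k + 1) (z (k + 1) 0) := rfl
  have h5 : phi0 (eb (k + 1) 1) = Finsupp.single (k + 1) (z (k + 1) 1) + Finsupp.single k 1 := rfl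
  have h6 : phi0 (eb (k + 1) 2) = Finsupp.single (k + 1) (z (k + 1) 2) := rfl
  rw [h1, h2, h3, Fin.sum_univ_three, h4, h5, h6]
  simp only [smul_add, Finsupp.smul_single, smul_eq_mul, mul_one, smul_zero, sub_zero]
  have h7 : (Finsupp.single (k + 1) (1 : RR) : ℕ →₀ RR) = Finsupp.single (k + 1) (z (k + 1 + 1) 0)
      + (Finsupp.single (k + 1) (X vth * (et (k + 1) 0 * z (k + 1) 0))
      + Finsupp.single (k + 1) (X vth * (et (k + 1) 1 * z (k + 1) 1))
      + Finsupp.single (k + 1) (X vth * (et (k + 1) 2 * z (k + 1) 2))) := by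
    rw [← Finsupp.single_add, ← Finsupp.single_add, ← Finsupp.single_add, z_succ0,
      Fin.sum_univ_three]
    congr 1; ring
  rw [h7, mul_comm (z (k + 1 + 1) 1) (z (k + 1 + 1) 0)]
  abel

theorem phi_psi0 : ∀ k, phi (psi0 k) = Finsupp.single k 1
  | 0 => phi_base0
  | (k + 1) => by
    rw [psi0, map_sub, map_smul, phi_base_succ, phi_psi0 k, Finsupp.smul_single, smul_eq_mul,
      mul_one]
    abel

noncomputable def psi : (ℕ →₀ RR) →ₗ[RR] (YY →₀ RR) := Finsupp.linearCombination RR psi0

theorem phi_psi (f : ℕ →₀ RR) : phi (psi f) = f := by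
  have : phi.comp psi = LinearMap.id := by
    refine Finsupp.lhom_ext' fun k => LinearMap.ext_ring ?_
    simp [psi, phi_psi0]
  exact DFunLike.congr_fun this f

theorem dd_psi (f : ℕ →₀ RR) : dd (psi f) = 0 := by
  have : dd.comp psi = 0 := by
    refine Finsupp.lhom_ext' fun k => LinearMap.ext_ring ?_
    simp [psi, dd_psi0]
  exact DFunLike.congr_fun this f

/-- the idempotent -/
noncomputable def EE : (YY →₀ RR) →ₗ[RR] (YY →₀ RR) := LinearMap.id - psi.comp phi

theorem EE_apply (f : YY →₀ RR) : EE f = f - psi (phi f) := rfl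

theorem phi_EE (f : YY →₀ RR) : phi (EE f) = 0 := by
  rw [EE_apply, map_sub, phi_psi, sub_self]

theorem EE_EE (f : YY →₀ RR) : EE (EE f) = EE f := by
  rw [EE_apply (EE f), phi_EE, map_zero, sub_zero]

theorem dd_EE (f : YY →₀ RR) : dd (EE f) = dd f := by
  rw [EE_apply, map_sub, dd_psi, sub_zero]

theorem phi_of_EE {f : YY →₀ RR} (h : EE f = f) : phi f = 0 := by
  rw [← h, phi_EE]

theorem EE_of_phi {f : YY →₀ RR} (h : phi f = 0) : EE f = f := by
  rw [EE_apply, h, map_zero, sub_zero]

/-! coordinates of `phi` -/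

theorem phi_coord0 (f : YY →₀ RR) : phi f 0 = (∑ j, f (eb 0 j) * z 0 j) + f (Sum.inr 0) := by
  induction f using Finsupp.induction_linear with
  | zero => simp
  | add f g hf hg =>
    rw [map_add phi f g, Finsupp.add_apply, hf, hg]
    simp only [Finsupp.add_apply, add_mul, Finset.sum_add_distrib]
    abel
  | single y r =>
    rw [phi_single, Fin.sum_univ_three]
    rcases y with ((_ | (j | ⟨k, _ | _⟩)) | k)
    · simp [phi0, eb, vg]
    · fin_cases j <;> simp [phi0, eb, vg]
    · simp [phi0, eb, vg]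
    · simp [phi0, eb, vg]
    · cases k with
      | zero => simp [phi0, eb, vg]
      | succ k => simp [phi0, eb, vg]

theorem phi_coord_succ (f : YY →₀ RR) (k : ℕ) :
    phi f (k + 1) = (∑ j, f (eb (k + 1) j) * z (k + 1) j) + f (Sum.inr (k + 1)) := by
  induction f using Finsupp.induction_linear with
  | zero => simp
  | add f g hf hg =>
    rw [map_add phi f g, Finsupp.add_apply, hf, hg]
    simp only [Finsupp.add_apply, add_mul, Finset.sum_add_distrib]
    abel
  | single y r =>
    rw [phi_single, Fin.sum_univ_three, eb_succ0, eb_succ1, eb_succ2]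
    rcases y with ((_ | (j | ⟨l, _ | _⟩)) | l)
    · simp [phi0, vst]
    · simp [phi0, vst]
    · by_cases h : l = k
      · subst h; simp [phi0, vst]
      · simp [phi0, vst, h]
    · by_cases h : l = k
      · subst h; simp [phi0, vst]
      · simp [phi0, vst, h]
    · by_cases h : l = k
      · subst h; simp [phi0, vst]
      · by_cases h' : l = k + 1
        · subst h'; simp [phi0, vst]
        · simp [phi0, vst, h, h']

theorem phi_coord (f : YY →₀ RR) (k : ℕ) :
    phi f k = (∑ j, f (eb k j) * z k j) + f (Sum.inr k) := by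
  cases k with
  | zero => exact phi_coord0 f
  | succ k => exact phi_coord_succ f k

/-! augmentation -/

noncomputable def chi (v : Vr) : AG →* Multiplicative ℤ :=
  Abelianization.lift (FreeGroup.lift (fun w => if w = v then Multiplicative.ofAdd 1 else 1))

noncomputable def delta (v : Vr) : RR →+ ℤ := ext (fun a => (chi v a).toAdd)

theorem delta_mul (v : Vr) (r : RR) (a : AG) :
    delta v (r * (u a - 1)) = aug r * (chi v a).toAdd := by
  induction r using MonoidAlgebra.induction_linear with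
  | zero => simp
  | add r s hr hs => rw [add_mul, map_add, hr, hs, map_add, add_mul]
  | single b n =>
    rw [single_eq_zsmul, smul_mul_assoc, map_zsmul, map_zsmul, mul_sub, mul_one, ← u_mul, map_sub,
      delta, ext_u, ext_u, map_mul, toAdd_mul, aug_u]
    simp

theorem delta_dd (v : Vr) (f : YY →₀ RR) : delta v (dd f) = aug (f (Sum.inl v)) := by
  induction f using Finsupp.induction_linear with
  | zero => simp
  | add f g hf hg => rw [map_add, map_add, hf, hg, Finsupp.add_apply, map_add]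
  | single y r =>
    have h1 : dd (Finsupp.single y r) = r * (u (yy y : AG) - 1) := by simp [dd]
    rw [h1, delta_mul]
    rcases y with w | b
    · by_cases h : w = v
      · subst h; simp [yy, chi]
      · simp [yy, chi, h]
    · simp [yy]

theorem aug_inr {f : YY →₀ RR} (h1 : phi f = 0) (h2 : dd f = 0) : ∀ k, aug (f (Sum.inr k)) = 0 := by
  have hv : ∀ v, aug (f (Sum.inl v)) = 0 := fun v => by rw [← delta_dd, h2, map_zero]
  intro k
  induction k with
  | zero =>
    have h := congrArg aug (phi_coord f 0)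
    rw [h1] at h
    simp only [Finsupp.coe_zero, Pi.zero_apply, map_zero, map_add, map_sum, map_mul] at h
    have h3 : ∀ j, aug (f (eb 0 j)) = 0 := fun j => hv _
    simp only [h3, zero_mul, Finset.sum_const_zero, zero_add] at h
    exact h.symm
  | succ k ih =>
    have h := congrArg aug (phi_coord f (k + 1))
    rw [h1, Fin.sum_univ_three, eb_succ0, eb_succ1, eb_succ2] at h
    simp only [Finsupp.coe_zero, Pi.zero_apply, map_zero, map_add, map_mul, hv, ih, zero_mul,
      zero_add] at h
    exact h.symm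

theorem hB (b : ℕ) : rho EE_EE dd_EE (cP hd_dd (Sum.inr b)) ∈ commutator (PQ dd EE) := by
  have h := comm_mem hd_dd EE_EE dd_EE (EE (Finsupp.single (Sum.inr b) 1)) (EE_EE _)
    (by rw [dd_EE, dd_inr]) (aug_inr (phi_EE _) (by rw [dd_EE, dd_inr]))
  rw [← Subgroup.map_subtype_commutator] at h
  obtain ⟨x, hx, hx'⟩ := h
  have : x = rho EE_EE dd_EE (cP hd_dd (Sum.inr b)) := Subtype.ext hx'
  rw [← this]; exact hx

/-- the group -/
abbrev PP' : Type := PQ dd EE

theorem projective {G H : Type} [Group G] [Group H] (hG : derivedSeries G 2 = ⊥)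
    (α : G →* H) (hα : Function.Surjective α) (g : PP' →* H) : ∃ h : PP' →* G, α.comp h = g :=
  lift_PQ hd_dd EE_EE dd_EE hB hG α hα g

theorem metabelian : derivedSeries PP' 2 = ⊥ := by
  refine metab_of_hom (Aff.pr.comp (PQ dd EE).subtype) ?_
  intro x y hx hy
  have hx' : x.1.a = 1 := hx
  have hy' : y.1.a = 1 := hy
  apply Subtype.ext
  ext1
  · simp [mul_comm]
  · simp only [Subgroup.coe_mul, Aff.mul_v, hx', hy', u_one, one_smul]
    abel

end Pool.Agent.Helper878.PM
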