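import Mathlib

set_option autoImplicit false

namespace Pool.Agent.Helper878.PM

open Finset

section Forms

variable {D : Type} [Fintype D] [LinearOrder D]

/-- unit vector -/
def e (d : D) : D → ℤ := Pi.single d 1

omit [Fintype D] in
theorem e_self (d : D) : e d d = 1 := by simp [e]

omit [Fintype D] in
theorem e_ne {c d : D} (h : c ≠ d) : e d c = 0 := by simp [e, h]

/-- wedge with the basis covector `d` -/
def w (d : D) : (Finset D → ℝ) →ₗ[ℝ] (Finset D → ℝ) where
  toFun f := fun S => if d ∈ S then (-1) ^ (#{c ∈ S | c < d}) * f (S.erase d) else 0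
  map_add' f g := by
    funext S
    by_cases h : d ∈ S
    · simp [h, mul_add]
    · simp [h]
  map_smul' a f := by
    funext S
    by_cases h : d ∈ S
    · simp [h]; ring
    · simp [h]

omit [Fintype D] in
theorem w_apply_mem {d : D} {S : Finset D} (h : d ∈ S) (f : Finset D → ℝ) :
    w d f S = (-1) ^ (#{c ∈ S | c < d}) * f (S.erase d) := by
  simp [w, h]

omit [Fintype D] in
theorem w_apply_not_mem {d : D} {S : Finset D} (h : d ∉ S) (f : Finset D → ℝ) :
    w d f S = 0 := by
  simp [w, h]

omit [Fintype D] in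
theorem w_w_same (d : D) (f : Finset D → ℝ) : w d (w d f) = 0 := by
  funext S
  by_cases h : d ∈ S
  · rw [w_apply_mem h, w_apply_not_mem (by simp)]; simp
  · rw [w_apply_not_mem h]; rfl

omit [Fintype D] in
theorem w_anti_lt {d d' : D} (hlt : d < d') (f : Finset D → ℝ) :
    w d (w d' f) = - w d' (w d f) := by
  funext S
  rw [Pi.neg_apply]
  by_cases h : d ∈ S
  · by_cases h' : d' ∈ S
    · have hne : d' ≠ d := ne_of_gt hlt
      have h1 : d' ∈ S.erase d := by simp [hne, h']
      have h2 : d ∈ S.erase d' := by simp [hne.symm, h]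
      rw [w_apply_mem h, w_apply_mem h1, w_apply_mem h', w_apply_mem h2]
      rw [Finset.erase_right_comm]
      have e1 : #{c ∈ S.erase d' | c < d} = #{c ∈ S | c < d} := by
        congr 1
        ext c
        simp only [mem_filter, mem_erase]
        constructor
        · rintro ⟨⟨_, hc⟩, h4⟩; exact ⟨hc, h4⟩
        · rintro ⟨hc, h4⟩
          exact ⟨⟨(lt_trans h4 hlt).ne, hc⟩, h4⟩
      have e2 : #{c ∈ S | c < d'} = #{c ∈ S.erase d | c < d'} + 1 := by
        have : ({c ∈ S.erase d | c < d'} : Finset D) = ({c ∈ S | c < d'} : Finset D).erase d := by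
          ext c
          simp only [mem_filter, mem_erase]
          tauto
        rw [this, Finset.card_erase_add_one]
        simp [h, hlt]
      rw [e1, e2, pow_succ]
      ring
    · have h1 : d' ∉ S.erase d := by simp [h']
      rw [w_apply_mem h, w_apply_not_mem h1, w_apply_not_mem h']; simp
  · by_cases h' : d' ∈ S
    · have h2 : d ∉ S.erase d' := by simp [h]
      rw [w_apply_not_mem h, w_apply_mem h', w_apply_not_mem h2]; simp
    · rw [w_apply_not_mem h, w_apply_not_mem h']; simp

omit [Fintype D] in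
theorem w_anti (d d' : D) (f : Finset D → ℝ) : w d (w d' f) = - w d' (w d f) := by
  rcases lt_trichotomy d d' with h | h | h
  · exact w_anti_lt h f
  · subst h; rw [w_w_same]; simp
  · rw [w_anti_lt h f, neg_neg]

/-- wedge of a 1-cochain with a form (with shift) -/
def cup1 (B : D → (D → ℤ) → ℝ) (M : (D → ℤ) → (Finset D → ℝ)) : (D → ℤ) → (Finset D → ℝ) :=
  fun x => ∑ d, B d x • w d (M (x + e d))

/-- differential -/
def dF (M : (D → ℤ) → (Finset D → ℝ)) : (D → ℤ) → (Finset D → ℝ) :=
  fun x => ∑ d, w d (M (x + e d) - M x)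

/-- wedge of the differential of a 1-cochain with a form -/
def cup2 (A : D → (D → ℤ) → ℝ) (M : (D → ℤ) → (Finset D → ℝ)) : (D → ℤ) → (Finset D → ℝ) :=
  fun x => ∑ d, ∑ d', (A d' (x + e d) - A d' x) • w d (w d' (M (x + e d + e d')))

theorem sum_w_symm (g : D → D → (Finset D → ℝ)) (hg : ∀ d d', g d d' = g d' d) :
    ∑ d, ∑ d', w d (w d' (g d d')) = 0 := by
  have h1 : ∑ d, ∑ d', w d (w d' (g d d')) = - ∑ d, ∑ d', w d (w d' (g d d')) := by
    calc ∑ d, ∑ d', w d (w d' (g d d')) = ∑ d, ∑ d', - w d' (w d (g d' d)) := by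
          refine Finset.sum_congr rfl fun d _ => Finset.sum_congr rfl fun d' _ => ?_
          rw [w_anti, hg]
      _ = ∑ d', ∑ d, - w d' (w d (g d' d)) := Finset.sum_comm
      _ = - ∑ d, ∑ d', w d (w d' (g d d')) := by
          simp only [Finset.sum_neg_distrib]
  have h2 : (2 : ℝ) • ∑ d, ∑ d', w d (w d' (g d d')) = 0 := by
    rw [two_smul]
    nth_rewrite 1 [h1]
    simp
  exact (smul_eq_zero.mp h2).resolve_left (by norm_num)

theorem leibniz (A : D → (D → ℤ) → ℝ) (M : (D → ℤ) → (Finset D → ℝ)) :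
    dF (cup1 A M) = cup2 A M - cup1 A (dF M) := by
  funext x
  have h1 : dF (cup1 A M) x = (∑ d, ∑ d', A d' (x + e d) • w d (w d' (M (x + e d + e d'))))
      - ∑ d, ∑ d', A d' x • w d (w d' (M (x + e d'))) := by
    simp only [dF, cup1, map_sub, map_sum, map_smul, Finset.sum_sub_distrib]
  have h2 : cup1 A (dF M) x = (∑ d, ∑ d', A d x • w d (w d' (M (x + e d + e d'))))
      - ∑ d, ∑ d', A d x • w d (w d' (M (x + e d))) := by
    simp only [dF, cup1, map_sub, map_sum, Finset.sum_sub_distrib, Finset.smul_sum, smul_sub]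
  have h3 : cup2 A M x = (∑ d, ∑ d', A d' (x + e d) • w d (w d' (M (x + e d + e d'))))
      - ∑ d, ∑ d', A d' x • w d (w d' (M (x + e d + e d'))) := by
    simp only [cup2, sub_smul, Finset.sum_sub_distrib]
  have h4 : ∑ d, ∑ d', A d' x • w d (w d' (M (x + e d')))
      = - ∑ d, ∑ d', A d x • w d (w d' (M (x + e d))) := by
    rw [Finset.sum_comm, ← Finset.sum_neg_distrib]
    refine Finset.sum_congr rfl fun d _ => ?_
    rw [← Finset.sum_neg_distrib]
    refine Finset.sum_congr rfl fun d' _ => ?_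
    rw [w_anti d' d, smul_neg]
  have h5 : ∑ d, ∑ d', A d' x • w d (w d' (M (x + e d + e d')))
      = - ∑ d, ∑ d', A d x • w d (w d' (M (x + e d + e d'))) := by
    rw [Finset.sum_comm, ← Finset.sum_neg_distrib]
    refine Finset.sum_congr rfl fun d _ => ?_
    rw [← Finset.sum_neg_distrib]
    refine Finset.sum_congr rfl fun d' _ => ?_
    rw [w_anti d' d, smul_neg, add_right_comm]
  rw [Pi.sub_apply, h1, h2, h3, h4, h5]
  abel

theorem dF_dF (M : (D → ℤ) → (Finset D → ℝ)) : dF (dF M) = 0 := by
  funext x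
  have h1 : dF (dF M) x = ∑ d, ∑ d', w d (w d'
      (M (x + e d + e d') - M (x + e d) - M (x + e d') + M x)) := by
    simp only [dF, map_sub, map_add, map_sum, Finset.sum_sub_distrib, Finset.sum_add_distrib]
    abel
  rw [h1, sum_w_symm]
  · rfl
  · intro d d'
    rw [add_right_comm]; abel

end Forms

end Pool.Agent.Helper878.PM
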