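import Mathlib
import Pool.Agent.Helper878.PM.Forms

set_option autoImplicit false

namespace Pool.Agent.Helper878.PM

open Finset

/-- directions: two for each of the `m` factors -/
abbrev Dir (m : ℕ) := Fin m ×ₗ Bool

variable {m : ℕ}

def rr (i : Fin m) : Dir m := toLex (i, false)
def ph (i : Fin m) : Dir m := toLex (i, true)

/-- factor of a direction -/
def fac (d : Dir m) : Fin m := (ofLex d).1

theorem dir_cases (d : Dir m) : d = rr (fac d) ∨ d = ph (fac d) := by
  obtain ⟨⟨i, b⟩, rfl⟩ := toLex.surjective d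
  cases b
  · left; rfl
  · right; rfl

@[simp] theorem fac_rr (i : Fin m) : fac (rr i) = i := rfl
@[simp] theorem fac_ph (i : Fin m) : fac (ph i) = i := rfl

theorem rr_ne_ph (i j : Fin m) : rr i ≠ ph j := by
  intro h
  have := congrArg (fun d => (ofLex d).2) h
  simp [rr, ph] at this

theorem ph_ne_rr (i j : Fin m) : ph i ≠ rr j := (rr_ne_ph j i).symm

theorem rr_inj {i j : Fin m} (h : rr i = rr j) : i = j := congrArg fac h
theorem ph_inj {i j : Fin m} (h : ph i = ph j) : i = j := congrArg fac h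

/-- cochain hypotheses -/
structure Good (N : ℕ) (k : ℕ) (A : Dir m → (Dir m → ℤ) → ℝ) : Prop where
  per : ∀ d x j, A d (x + (N : ℤ) • e (ph j)) = A d x
  F1 : ∀ (j : Fin m) d x, (x (rr j) = 0 ∨ x (rr j) = (N : ℤ)) → d ≠ rr j → A d (x + e (ph j)) = A d x
  F20 : ∀ (j : Fin m) x, x (rr j) = 0 → A (ph j) x = if (j : ℕ) = k then -(1 / (N : ℝ)) else 0
  F2N : ∀ (j : Fin m) x, x (rr j) = (N : ℤ) → A (ph j) x = if (j : ℕ) = k then 1 / (N : ℝ) else 0

/-- admissible forms -/
structure Adm (N : ℕ) (M : (Dir m → ℤ) → (Finset (Dir m) → ℝ)) : Prop where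
  per : ∀ x j, M (x + (N : ℤ) • e (ph j)) = M x
  face : ∀ x (i : Fin m), (x (rr i) = 0 ∨ x (rr i) = (N : ℤ)) → ∀ S, rr i ∉ S → ph i ∈ S → M x S = 0

/-- the constant form one -/
def one : (Dir m → ℤ) → (Finset (Dir m) → ℝ) := fun _ S => if S = ∅ then 1 else 0

theorem adm_one (N : ℕ) : Adm N (one (m := m)) := by
  constructor
  · intro x j; rfl
  · intro x i _ S _ h
    have : S ≠ ∅ := Finset.ne_empty_of_mem h
    simp [one, this]

theorem adm_cup2 {N k : ℕ} {A : Dir m → (Dir m → ℤ) → ℝ} (hA : Good N k A)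
    {M : (Dir m → ℤ) → (Finset (Dir m) → ℝ)} (hM : Adm N M) : Adm N (cup2 A M) := by
  constructor
  · intro x j
    unfold cup2
    refine Finset.sum_congr rfl fun d _ => Finset.sum_congr rfl fun d' _ => ?_
    rw [hA.per, add_right_comm x _ (e d), hA.per, add_right_comm (x + e d) _ (e d'), hM.per]
  · intro x i hx S hr hp
    unfold cup2
    rw [Finset.sum_apply]
    refine Finset.sum_eq_zero fun d _ => ?_
    rw [Finset.sum_apply]
    refine Finset.sum_eq_zero fun d' _ => ?_
    rw [Pi.smul_apply, smul_eq_mul]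
    by_cases hd : d ∈ S
    · by_cases hd' : d' ∈ S.erase d
      · have hdS : d' ∈ S := Finset.mem_of_mem_erase hd'
        have hdr : d ≠ rr i := fun h => hr (h ▸ hd)
        have hdr' : d' ≠ rr i := fun h => hr (h ▸ hdS)
        by_cases h1 : d = ph i
        · subst h1
          rw [hA.F1 i d' x hx hdr']; simp
        · by_cases h2 : d' = ph i
          · subst h2
            have hx' : (x + e d) (rr i) = x (rr i) := by simp [e_ne hdr.symm]
            have : A (ph i) (x + e d) = A (ph i) x := by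
              rcases hx with h | h
              · rw [hA.F20 i x h, hA.F20 i _ (by rw [hx']; exact h)]
              · rw [hA.F2N i x h, hA.F2N i _ (by rw [hx']; exact h)]
            rw [this]; simp
          · rw [w_apply_mem hd, w_apply_mem hd']
            rw [hM.face (x + e d + e d') i (by simpa [e_ne hdr.symm, e_ne hdr'.symm] using hx)]
            · simp
            · simp [hr]
            · simp [hp, Ne.symm h1, Ne.symm h2]
      · rw [w_apply_mem hd, w_apply_not_mem hd']; simp
    · rw [w_apply_not_mem hd]; simp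

/-- hypotheses on a difference of cochains -/
structure Small (N : ℕ) (B : Dir m → (Dir m → ℤ) → ℝ) : Prop where
  per : ∀ d x j, B d (x + (N : ℤ) • e (ph j)) = B d x
  face : ∀ (j : Fin m) x, (x (rr j) = 0 ∨ x (rr j) = (N : ℤ)) → B (ph j) x = 0

theorem adm_cup1 {N : ℕ} {B : Dir m → (Dir m → ℤ) → ℝ} (hB : Small N B)
    {M : (Dir m → ℤ) → (Finset (Dir m) → ℝ)} (hM : Adm N M) : Adm N (cup1 B M) := by
  constructor
  · intro x j
    unfold cup1
    refine Finset.sum_congr rfl fun d _ => ?_
    rw [hB.per, add_right_comm x _ (e d), hM.per]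
  · intro x i hx S hr hp
    unfold cup1
    rw [Finset.sum_apply]
    refine Finset.sum_eq_zero fun d _ => ?_
    rw [Pi.smul_apply, smul_eq_mul]
    by_cases hd : d ∈ S
    · have hdr : d ≠ rr i := fun h => hr (h ▸ hd)
      by_cases h1 : d = ph i
      · subst h1
        rw [hB.face i x hx]; simp
      · rw [w_apply_mem hd, hM.face (x + e d) i (by simpa [e_ne hdr.symm] using hx)]
        · simp
        · simp [hr]
        · simp [hp, Ne.symm h1]
    · rw [w_apply_not_mem hd]; simp

/-- coercion of a grid point -/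
def cst {N : ℕ} (x : Dir m → Fin N) : Dir m → ℤ := fun c => ((x c : ℕ) : ℤ)

theorem val_one_add {N : ℕ} [NeZero N] (t : Fin N) : ((t + 1 : Fin N) : ℕ) = ((t : ℕ) + 1) % N := by
  rw [Fin.val_add, Fin.val_one', Nat.add_mod_mod]

theorem tele {N : ℕ} [NeZero N] (g : (Dir m → ℤ) → ℝ) (d : Dir m)
    (hg : ∀ y, y d = 0 → g (y + (N : ℤ) • e d) = g y) :
    ∑ x : Dir m → Fin N, g (cst x + e d) = ∑ x : Dir m → Fin N, g (cst x) := by
  rw [← Equiv.sum_comp (Equiv.addRight (Pi.single d (1 : Fin N))) (fun x => g (cst x))]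
  refine Finset.sum_congr rfl fun x _ => ?_
  rw [Equiv.coe_addRight]
  by_cases h : (x d : ℕ) + 1 < N
  · congr 1
    funext c
    by_cases hc : c = d
    · subst hc
      simp only [cst, Pi.add_apply, e_self, Pi.single_eq_same]
      rw [val_one_add, Nat.mod_eq_of_lt h]
      push_cast; ring
    · simp [cst, e_ne hc, hc]
  · have hx : (x d : ℕ) + 1 = N := by have := (x d).2; omega
    have key : cst x + e d = cst (x + Pi.single d 1) + (N : ℤ) • e d := by
      funext c
      by_cases hc : c = d
      · subst hc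
        simp only [cst, Pi.add_apply, e_self, Pi.single_eq_same, Pi.smul_apply]
        rw [val_one_add, hx, Nat.mod_self]
        simp only [smul_eq_mul, mul_one]
        have : ((x c : ℕ) : ℤ) + 1 = (N : ℤ) := by exact_mod_cast hx
        rw [this]; simp
      · simp [cst, e_ne hc, hc]
    rw [key, hg]
    simp only [cst, Pi.add_apply, Pi.single_eq_same]
    rw [val_one_add, hx, Nat.mod_self]; rfl

/-- shift vector -/
def sg (j : ℕ) : Dir m → ℤ := fun c => if (fac c : ℕ) < j then 1 else 0

/-- remaining directions -/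
def UU (j : ℕ) : Finset (Dir m) := Finset.univ.filter (fun c => j ≤ (fac c : ℕ))

theorem mem_UU {j : ℕ} {c : Dir m} : c ∈ UU j ↔ j ≤ (fac c : ℕ) := by simp [UU]

theorem sg_succ (i : Fin m) : sg ((i : ℕ) + 1) = sg (i : ℕ) + e (rr i) + e (ph i) := by
  funext c
  simp only [sg, Pi.add_apply]
  rcases dir_cases c with h | h
  · by_cases hi : fac c = i
    · have hc : c = rr i := by rw [h, hi]
      subst hc
      simp [e_self, e_ne (rr_ne_ph i i)]
    · have h1 : c ≠ rr i := fun h' => hi (by rw [h']; rfl)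
      have h2 : c ≠ ph i := fun h' => hi (by rw [h']; rfl)
      have h3 : (fac c : ℕ) ≠ i := fun h' => hi (Fin.ext h')
      rw [e_ne h1, e_ne h2]
      by_cases h4 : (fac c : ℕ) < i
      · rw [if_pos (by omega), if_pos h4]; rfl
      · rw [if_neg (by omega), if_neg h4]; rfl
  · by_cases hi : fac c = i
    · have hc : c = ph i := by rw [h, hi]
      subst hc
      simp [e_self, e_ne (ph_ne_rr i i)]
    · have h1 : c ≠ rr i := fun h' => hi (by rw [h']; rfl)
      have h2 : c ≠ ph i := fun h' => hi (by rw [h']; rfl)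
      have h3 : (fac c : ℕ) ≠ i := fun h' => hi (Fin.ext h')
      rw [e_ne h1, e_ne h2]
      by_cases h4 : (fac c : ℕ) < i
      · rw [if_pos (by omega), if_pos h4]; rfl
      · rw [if_neg (by omega), if_neg h4]; rfl

theorem UU_succ (i : Fin m) : ((UU (i : ℕ)).erase (rr i)).erase (ph i) = UU ((i : ℕ) + 1) := by
  ext c
  simp only [mem_erase, mem_UU]
  constructor
  · rintro ⟨h1, h2, h3⟩
    rcases dir_cases c with h | h
    · have : fac c ≠ i := fun h' => h2 (by rw [h, h'])
      have : (fac c : ℕ) ≠ i := fun h' => this (Fin.ext h')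
      omega
    · have : fac c ≠ i := fun h' => h1 (by rw [h, h'])
      have : (fac c : ℕ) ≠ i := fun h' => this (Fin.ext h')
      omega
  · intro h
    refine ⟨?_, ?_, by omega⟩
    · rintro rfl; simp at h
    · rintro rfl; simp at h

/-- total sum of the relevant coefficient -/
noncomputable def SS (N : ℕ) (j : ℕ) (M : (Dir m → ℤ) → (Finset (Dir m) → ℝ)) : ℝ :=
  ∑ x : Dir m → Fin N, M (cst x + sg j) (UU j)

theorem SS_add (N j : ℕ) (M M' : (Dir m → ℤ) → (Finset (Dir m) → ℝ)) :
    SS N j (M + M') = SS N j M + SS N j M' := by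
  simp [SS, Finset.sum_add_distrib]

theorem stokes {N : ℕ} [NeZero N] (j : ℕ) {M : (Dir m → ℤ) → (Finset (Dir m) → ℝ)}
    (hM : Adm N M) : SS N j (dF M) = 0 := by
  unfold SS dF
  have h1 : ∀ x : Dir m → Fin N, (∑ d, w d (M (cst x + sg j + e d) - M (cst x + sg j))) (UU j)
      = ∑ d, (w d (M (cst x + sg j + e d) - M (cst x + sg j))) (UU j) := fun x => by
    rw [Finset.sum_apply]
  rw [Finset.sum_congr rfl (fun x _ => h1 x), Finset.sum_comm]
  refine Finset.sum_eq_zero fun d _ => ?_
  by_cases hd : d ∈ UU j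
  · have hsd : sg j d = 0 := by
      rw [mem_UU] at hd
      simp only [sg]
      rw [if_neg (by omega)]
    set g : (Dir m → ℤ) → ℝ := fun y => M (y + sg j) ((UU j).erase d) with hg
    have hper : ∀ y, y d = 0 → g (y + (N : ℤ) • e d) = g y := by
      intro y hy
      simp only [hg]
      rw [add_right_comm]
      rcases dir_cases d with h | h
      · have hmem : ph (fac d) ∈ (UU j).erase d := by
          rw [mem_erase, mem_UU]
          refine ⟨?_, by simpa using mem_UU.mp hd⟩
          intro h'; rw [h] at h'; simp only [fac_rr] at h'; exact ph_ne_rr _ _ h'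
        have hnm : rr (fac d) ∉ (UU j).erase d := by
          rw [← h]; simp
        rw [hM.face _ (fac d) _ _ hnm hmem, hM.face _ (fac d) _ _ hnm hmem]
        · left
          rw [← h]
          simp [hy, hsd]
        · right
          rw [← h]
          simp [hy, hsd, e_self]
      · rw [h, hM.per]
    have h2 : ∀ x : Dir m → Fin N, (w d (M (cst x + sg j + e d) - M (cst x + sg j))) (UU j)
        = (-1) ^ (#{c ∈ UU j | c < d}) * g (cst x + e d)
          - (-1) ^ (#{c ∈ UU j | c < d}) * g (cst x) := by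
      intro x
      rw [w_apply_mem hd, Pi.sub_apply]
      simp only [hg]
      rw [add_right_comm (cst x) (e d) (sg j)]
      ring
    rw [Finset.sum_congr rfl (fun x _ => h2 x), Finset.sum_sub_distrib, ← Finset.mul_sum,
      ← Finset.mul_sum, tele g d hper, sub_self]
  · exact Finset.sum_eq_zero fun x _ => w_apply_not_mem hd _

/-- model cochain -/
noncomputable def A0 (N : ℕ) (i : Fin m) : Dir m → (Dir m → ℤ) → ℝ :=
  fun d x => if d = ph i then (2 * (x (rr i) : ℝ) / N - 1) / N else 0

theorem cup2_A0 (N : ℕ) (i : Fin m) (M : (Dir m → ℤ) → (Finset (Dir m) → ℝ)) (x : Dir m → ℤ) :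
    cup2 (A0 N i) M x = (2 / (N : ℝ) / N) • w (rr i) (w (ph i) (M (x + e (rr i) + e (ph i)))) := by
  unfold cup2
  rw [Finset.sum_eq_single (rr i)]
  · rw [Finset.sum_eq_single (ph i)]
    · congr 1
      simp only [A0, if_true, Pi.add_apply, e_self]
      push_cast
      ring
    · intro d' _ hd'
      simp [A0, hd']
    · intro h; exact absurd (Finset.mem_univ _) h
  · intro d _ hd
    refine Finset.sum_eq_zero fun d' _ => ?_
    have : A0 N i d' (x + e d) = A0 N i d' x := by
      simp [A0, e_ne (Ne.symm hd)]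
    rw [this]; simp
  · intro h; exact absurd (Finset.mem_univ _) h

theorem small_sub {N : ℕ} [NeZero N] (i : Fin m) {A : Dir m → (Dir m → ℤ) → ℝ}
    (hA : Good N (i : ℕ) A) : Small N (fun d x => A d x - A0 N i d x) := by
  have hN : (N : ℝ) ≠ 0 := by exact_mod_cast NeZero.ne N
  constructor
  · intro d x j
    have : A0 N i d (x + (N : ℤ) • e (ph j)) = A0 N i d x := by
      simp [A0, e_ne (rr_ne_ph i j)]
    show A d (x + (N : ℤ) • e (ph j)) - A0 N i d (x + (N : ℤ) • e (ph j)) = A d x - A0 N i d x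
    rw [hA.per, this]
  · intro j x hx
    simp only [A0]
    rcases hx with hx | hx
    · rw [hA.F20 j x hx]
      by_cases h : j = i
      · subst h; simp [hx]; ring
      · have h1 : (j : ℕ) ≠ i := fun h' => h (Fin.ext h')
        have h2 : ph j ≠ ph i := fun h' => h (ph_inj h')
        simp [h1, h2]
    · rw [hA.F2N j x hx]
      by_cases h : j = i
      · subst h
        simp only [if_true, hx]
        push_cast
        field_simp
        ring
      · have h1 : (j : ℕ) ≠ i := fun h' => h (Fin.ext h')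
        have h2 : ph j ≠ ph i := fun h' => h (ph_inj h')
        simp [h1, h2]

/-- iterated products -/
noncomputable def FF (A : ℕ → Dir m → (Dir m → ℤ) → ℝ) :
    ℕ → ℕ → (Dir m → ℤ) → (Finset (Dir m) → ℝ)
  | 0, _ => one
  | (t + 1), j => cup2 (A j) (FF A t (j + 1))

theorem dF_one : dF (one (m := m)) = 0 := by
  funext x
  refine Finset.sum_eq_zero fun d _ => ?_
  rw [show one (x + e d) - one x = (0 : Finset (Dir m) → ℝ) from sub_self (one x), map_zero]

theorem dF_FF (A : ℕ → Dir m → (Dir m → ℤ) → ℝ) : ∀ t j, dF (FF A t j) = 0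
  | 0, _ => dF_one
  | (t + 1), j => by
    have h := leibniz (A j) (FF A t (j + 1))
    rw [dF_FF A t (j + 1)] at h
    have h0 : cup1 (A j) (0 : (Dir m → ℤ) → (Finset (Dir m) → ℝ)) = 0 := by
      funext x; simp [cup1]
    rw [h0, sub_zero] at h
    show dF (cup2 (A j) (FF A t (j + 1))) = 0
    rw [← h, dF_dF]

theorem adm_FF {N : ℕ} {A : ℕ → Dir m → (Dir m → ℤ) → ℝ} :
    ∀ t j, j + t = m → (∀ k < m, Good N k (A k)) → Adm N (FF A t j)
  | 0, _ => fun _ _ => adm_one N
  | (t + 1), j => fun h hA => adm_cup2 (hA j (by omega)) (adm_FF t (j + 1) (by omega) hA)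

theorem SS_step {N : ℕ} [NeZero N] (i : Fin m) {A : Dir m → (Dir m → ℤ) → ℝ}
    (hA : Good N (i : ℕ) A) {M : (Dir m → ℤ) → (Finset (Dir m) → ℝ)} (hM : Adm N M)
    (hd : dF M = 0) : ∃ c : ℝ, c ≠ 0 ∧ SS N (i : ℕ) (cup2 A M) = c * SS N ((i : ℕ) + 1) M := by
  have hN : (N : ℝ) ≠ 0 := by exact_mod_cast NeZero.ne N
  have hB := small_sub i hA
  set B : Dir m → (Dir m → ℤ) → ℝ := fun d x => A d x - A0 N i d x with hBdef
  have hsum : cup2 A M = cup2 (A0 N i) M + cup2 B M := by
    funext x
    simp only [Pi.add_apply, cup2, ← Finset.sum_add_distrib, ← add_smul]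
    refine Finset.sum_congr rfl fun d _ => Finset.sum_congr rfl fun d' _ => ?_
    congr 1
    simp only [hBdef]; ring
  have hB0 : SS N (i : ℕ) (cup2 B M) = 0 := by
    have h := leibniz B M
    rw [hd] at h
    have h0 : cup1 B (0 : (Dir m → ℤ) → (Finset (Dir m) → ℝ)) = 0 := by
      funext x; simp [cup1]
    rw [h0, sub_zero] at h
    rw [← h]
    exact stokes _ (adm_cup1 hB hM)
  rw [hsum, SS_add, hB0, add_zero]
  have hr : rr i ∈ UU (i : ℕ) := by rw [mem_UU]; simp
  have hp : ph i ∈ (UU (i : ℕ)).erase (rr i) := by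
    rw [mem_erase, mem_UU]; exact ⟨ph_ne_rr _ _, by simp⟩
  refine ⟨(2 / (N : ℝ) / N) * ((-1) ^ (#{c ∈ UU (i : ℕ) | c < rr i}) *
    (-1) ^ (#{c ∈ (UU (i : ℕ)).erase (rr i) | c < ph i})), ?_, ?_⟩
  · refine mul_ne_zero (div_ne_zero (div_ne_zero two_ne_zero hN) hN)
      (mul_ne_zero (pow_ne_zero _ (by norm_num)) (pow_ne_zero _ (by norm_num)))
  · unfold SS
    rw [Finset.mul_sum]
    refine Finset.sum_congr rfl fun x _ => ?_
    rw [cup2_A0, Pi.smul_apply, smul_eq_mul, w_apply_mem hr, w_apply_mem hp, UU_succ, sg_succ,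
      ← add_assoc, ← add_assoc]
    ring

theorem SS_FF {N : ℕ} [NeZero N] {A : ℕ → Dir m → (Dir m → ℤ) → ℝ}
    (hA : ∀ k < m, Good N k (A k)) : ∀ t j, j + t = m → SS N j (FF A t j) ≠ 0
  | 0, j => fun h => by
    have hU : UU (m := m) j = ∅ := by
      ext c
      simp only [mem_UU, Finset.notMem_empty, iff_false, not_le]
      have := (fac c).2
      omega
    simp only [SS, FF, hU, one]
    simp only [if_true, Finset.sum_const, Finset.card_univ, nsmul_eq_mul, mul_one]
    have : Fintype.card (Dir m → Fin N) ≠ 0 := Fintype.card_ne_zero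
    exact_mod_cast this
  | (t + 1), j => fun h => by
    obtain ⟨c, hc, he⟩ := SS_step (⟨j, by omega⟩ : Fin m) (hA j (by omega))
      (adm_FF t (j + 1) (by omega) hA) (dF_FF A t (j + 1))
    simp only at he
    show SS N j (cup2 (A j) (FF A t (j + 1))) ≠ 0
    rw [he]
    exact mul_ne_zero hc (SS_FF hA t (j + 1) (by omega))

/-- curvature of a 1-cochain -/
def curv (A : Dir m → (Dir m → ℤ) → ℝ) (y : Dir m → ℤ) (d d' : Dir m) : ℝ :=
  (A d' (y + e d) - A d' y) - (A d (y + e d') - A d y)

theorem cup2_apply_zero (A : Dir m → (Dir m → ℤ) → ℝ) (M : (Dir m → ℤ) → (Finset (Dir m) → ℝ))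
    (y : Dir m → ℤ) (S : Finset (Dir m))
    (h : ∀ d ∈ S, ∀ d' ∈ S, d ≠ d' → curv A y d d' = 0) : cup2 A M y S = 0 := by
  set g : Dir m → Dir m → (Finset (Dir m) → ℝ) := fun d d' =>
    (if d ∈ S ∧ d' ∈ S then A d' (y + e d) - A d' y else 0) • M (y + e d + e d') with hg
  have hsym : ∀ d d', d ≠ d' → g d d' = g d' d := by
    intro d d' hne
    simp only [hg]
    by_cases h1 : d ∈ S ∧ d' ∈ S
    · have h2 : d' ∈ S ∧ d ∈ S := ⟨h1.2, h1.1⟩
      rw [if_pos h1, if_pos h2, add_right_comm]
      congr 1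
      have := h d h1.1 d' h1.2 hne
      unfold curv at this
      linarith
    · have h2 : ¬ (d' ∈ S ∧ d ∈ S) := fun h' => h1 ⟨h'.2, h'.1⟩
      rw [if_neg h1, if_neg h2]; simp
  have hsym' : ∀ d d', g d d' = g d' d := by
    intro d d'
    by_cases hne : d = d'
    · subst hne; rfl
    · exact hsym d d' hne
  have h0 := sum_w_symm g hsym'
  have h1 : cup2 A M y S = (∑ d, ∑ d', w d (w d' (g d d'))) S := by
    unfold cup2
    rw [Finset.sum_apply, Finset.sum_apply]
    refine Finset.sum_congr rfl fun d _ => ?_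
    rw [Finset.sum_apply, Finset.sum_apply]
    refine Finset.sum_congr rfl fun d' _ => ?_
    simp only [hg, map_smul, Pi.smul_apply, smul_eq_mul]
    by_cases hd : d ∈ S
    · by_cases hd' : d' ∈ S.erase d
      · rw [if_pos ⟨hd, Finset.mem_of_mem_erase hd'⟩]
      · rw [w_apply_mem hd, w_apply_not_mem hd']; simp
    · rw [w_apply_not_mem hd]; simp
  rw [h1, h0]; rfl

theorem FF_zero (A : ℕ → Dir m → (Dir m → ℤ) → ℝ) : ∀ t j (y : Dir m → ℤ) (S : Finset (Dir m)) k,
    j ≤ k → k < j + t →
    (∀ y' : Dir m → ℤ, (∀ c, y' c = y c ∨ (c ∈ S ∧ y' c = y c + 1)) →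
      ∀ d ∈ S, ∀ d' ∈ S, d ≠ d' → y' d = y d → y' d' = y d' → curv (A k) y' d d' = 0) →
    FF A t j y S = 0
  | 0, j, y, S, k => fun h1 h2 _ => by omega
  | (t + 1), j, y, S, k => fun h1 h2 h => by
    show cup2 (A j) (FF A t (j + 1)) y S = 0
    by_cases hk : k = j
    · subst hk
      refine cup2_apply_zero _ _ _ _ fun d hd d' hd' hne => ?_
      exact h y (fun c => Or.inl rfl) d hd d' hd' hne rfl rfl
    · unfold cup2
      rw [Finset.sum_apply]
      refine Finset.sum_eq_zero fun d _ => ?_
      rw [Finset.sum_apply]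
      refine Finset.sum_eq_zero fun d' _ => ?_
      rw [Pi.smul_apply, smul_eq_mul]
      by_cases hd : d ∈ S
      · by_cases hd' : d' ∈ S.erase d
        · rw [w_apply_mem hd, w_apply_mem hd',
            FF_zero A t (j + 1) (y + e d + e d') ((S.erase d).erase d') k (by omega) (by omega) ?_]
          · simp
          · intro y' hy' d2 hd2 d3 hd3 hne e2 e3
            have hdd : d' ≠ d := Finset.ne_of_mem_erase hd'
            have m2 : d2 ≠ d' ∧ d2 ≠ d ∧ d2 ∈ S := by
              simpa [mem_erase] using hd2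
            have m3 : d3 ≠ d' ∧ d3 ≠ d ∧ d3 ∈ S := by
              simpa [mem_erase] using hd3
            refine h y' ?_ d2 m2.2.2 d3 m3.2.2 hne ?_ ?_
            · intro c
              by_cases hc : c = d
              · subst hc
                rcases hy' c with h4 | ⟨h4, _⟩
                · right
                  refine ⟨hd, ?_⟩
                  rw [h4]; simp [e_self, e_ne (Ne.symm hdd)]
                · simp at h4
              · by_cases hc' : c = d'
                · subst hc'
                  rcases hy' c with h4 | ⟨h4, _⟩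
                  · right
                    refine ⟨Finset.mem_of_mem_erase hd', ?_⟩
                    rw [h4]; simp [e_self, e_ne hc]
                  · simp at h4
                · rcases hy' c with h4 | ⟨h4, h5⟩
                  · left
                    rw [h4]; simp [e_ne hc, e_ne hc']
                  · right
                    refine ⟨?_, ?_⟩
                    · exact Finset.mem_of_mem_erase (Finset.mem_of_mem_erase h4)
                    · rw [h5]; simp [e_ne hc, e_ne hc']
            · rw [e2]; simp [e_ne m2.1, e_ne m2.2.1]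
            · rw [e3]; simp [e_ne m3.1, e_ne m3.2.1]
        · rw [w_apply_mem hd, w_apply_not_mem hd']; simp
      · rw [w_apply_not_mem hd]; simp

/-- Discrete theorem. -/
theorem discrete {N : ℕ} [NeZero N] {A : ℕ → Dir m → (Dir m → ℤ) → ℝ}
    (hA : ∀ k < m, Good N k (A k)) :
    ∃ x : Dir m → Fin N, ∀ k < m, ∃ (y : Dir m → ℤ) (d d' : Dir m), d ≠ d' ∧
      (∀ c, y c = cst x c ∨ y c = cst x c + 1) ∧ y d = cst x d ∧ y d' = cst x d' ∧
      curv (A k) y d d' ≠ 0 := by
  by_contra hcon
  push Not at hcon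
  apply SS_FF hA m 0 (by omega)
  unfold SS
  refine Finset.sum_eq_zero fun x _ => ?_
  obtain ⟨k, hk, h⟩ := hcon x
  have hs : sg (m := m) 0 = 0 := by funext c; simp [sg]
  rw [hs, add_zero]
  refine FF_zero A m 0 (cst x) _ k (by omega) (by omega) ?_
  intro y' hy' d _ d' _ hne h1 h2
  exact h y' d d' hne (fun c => (hy' c).imp id And.right) h1 h2

end Pool.Agent.Helper878.PM
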