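import Mathlib
import Pool.Agent.Helper878.PM.Discrete

set_option autoImplicit false

namespace Pool.Agent.Helper878.PM

open Finset Real

variable {m : ℕ}

/-- polar parametrisation of the sphere -/
noncomputable def pp (a b : ℝ) : Fin 3 → ℝ :=
  ![sin (π * a) * cos (2 * π * b), sin (π * a) * sin (2 * π * b), -cos (π * a)]

/-- a point of the product of spheres -/
noncomputable def PP (x : Dir m → ℝ) : Fin m → Fin 3 → ℝ := fun i => pp (x (rr i)) (x (ph i))

/-- components in the moving frame -/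
noncomputable def fr (a b : ℝ) (v : Fin 3 → ℝ) : ℂ :=
  ⟨v 0 * (cos (π * a) * cos (2 * π * b)) + v 1 * (cos (π * a) * sin (2 * π * b)) + v 2 * sin (π * a),
   -(v 0 * sin (2 * π * b)) + v 1 * cos (2 * π * b)⟩

theorem pp_norm (a b : ℝ) : ∑ j, pp a b j * pp a b j = 1 := by
  simp only [Fin.sum_univ_three, pp, Matrix.cons_val_zero, Matrix.cons_val_one, Matrix.cons_val]
  have h1 := sin_sq_add_cos_sq (π * a)
  have h2 := sin_sq_add_cos_sq (2 * π * b)
  calc _ = sin (π * a) ^ 2 * (sin (2 * π * b) ^ 2 + cos (2 * π * b) ^ 2) + cos (π * a) ^ 2 := by ring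
    _ = 1 := by rw [h2, mul_one, h1]

theorem fr_zero {a b : ℝ} {v : Fin 3 → ℝ} (h0 : ∑ j, pp a b j * v j = 0) (h : fr a b v = 0) :
    v = 0 := by
  have h1 := congrArg Complex.re h
  have h2 := congrArg Complex.im h
  simp only [Fin.sum_univ_three, pp, Matrix.cons_val_zero, Matrix.cons_val_one, Matrix.cons_val] at h0
  simp only [fr, Complex.zero_re, Complex.zero_im] at h1 h2
  have e1 := sin_sq_add_cos_sq (π * a)
  have e2 := sin_sq_add_cos_sq (2 * π * b)
  set s := sin (π * a)
  set c := cos (π * a)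
  set u := sin (2 * π * b)
  set t := cos (2 * π * b)
  have k1 : v 0 * t + v 1 * u = 0 := by
    have : v 0 * t + v 1 * u = (s ^ 2 + c ^ 2) * (v 0 * t + v 1 * u) := by rw [e1, one_mul]
    rw [this]
    linear_combination s * h0 + c * h1
  have k2 : v 2 = 0 := by
    have : v 2 = (s ^ 2 + c ^ 2) * v 2 := by rw [e1, one_mul]
    rw [this]
    linear_combination (-c) * h0 + s * h1
  have k3 : v 0 = 0 := by
    have : v 0 = (u ^ 2 + t ^ 2) * v 0 := by rw [e2, one_mul]
    rw [this]
    linear_combination t * k1 - u * h2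
  have k4 : v 1 = 0 := by
    have : v 1 = (u ^ 2 + t ^ 2) * v 1 := by rw [e2, one_mul]
    rw [this]
    linear_combination u * k1 + t * h2
  funext j
  fin_cases j
  · exact k3
  · exact k4
  · exact k2

theorem pp_per (a b : ℝ) : pp a (b + 1) = pp a b := by
  have : 2 * π * (b + 1) = 2 * π * b + 2 * π := by ring
  simp [pp, this]

theorem fr_per (a b : ℝ) (v : Fin 3 → ℝ) : fr a (b + 1) v = fr a b v := by
  have : 2 * π * (b + 1) = 2 * π * b + 2 * π := by ring
  simp [fr, this]

theorem pp_zero (b b' : ℝ) : pp 0 b = pp 0 b' := by simp [pp]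

theorem pp_one (b b' : ℝ) : pp 1 b = pp 1 b' := by simp [pp]

theorem fr_pole0 (b : ℝ) (v : Fin 3 → ℝ) (c : ℝ) :
    fr 0 (b + c) v = Complex.exp (-(2 * π * c : ℝ) * Complex.I) * fr 0 b v := by
  have e1 : 2 * π * (b + c) = 2 * π * b + 2 * π * c := by ring
  have e2 : Complex.exp (-(2 * π * c : ℝ) * Complex.I) = ⟨cos (2 * π * c), - sin (2 * π * c)⟩ := by
    rw [← Complex.ofReal_neg]
    apply Complex.ext
    · rw [Complex.exp_ofReal_mul_I_re, cos_neg]
    · rw [Complex.exp_ofReal_mul_I_im, sin_neg]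
  rw [e2]
  apply Complex.ext
  · simp only [fr, Complex.mul_re, mul_zero, sin_zero, cos_zero, e1, cos_add, sin_add]
    ring
  · simp only [fr, Complex.mul_im, mul_zero, sin_zero, cos_zero, e1, cos_add, sin_add]
    ring

theorem fr_pole1 (b : ℝ) (v : Fin 3 → ℝ) (c : ℝ) :
    fr 1 (b + c) v = Complex.exp ((2 * π * c : ℝ) * Complex.I) * fr 1 b v := by
  have e1 : 2 * π * (b + c) = 2 * π * b + 2 * π * c := by ring
  have e2 : Complex.exp ((2 * π * c : ℝ) * Complex.I) = ⟨cos (2 * π * c), sin (2 * π * c)⟩ := by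
    apply Complex.ext
    · rw [Complex.exp_ofReal_mul_I_re]
    · rw [Complex.exp_ofReal_mul_I_im]
  rw [e2]
  apply Complex.ext
  · simp only [fr, Complex.mul_re, mul_one, sin_pi, cos_pi, e1, cos_add, sin_add]
    ring
  · simp only [fr, Complex.mul_im, mul_one, sin_pi, cos_pi, e1, cos_add, sin_add]
    ring

theorem fr_continuous : Continuous (fun q : ℝ × ℝ × (Fin 3 → ℝ) => fr q.1 q.2.1 q.2.2) := by
  have h : (fun q : ℝ × ℝ × (Fin 3 → ℝ) => fr q.1 q.2.1 q.2.2) = fun q =>
    ((q.2.2 0 * (cos (π * q.1) * cos (2 * π * q.2.1)) + q.2.2 1 * (cos (π * q.1) * sin (2 * π * q.2.1))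
      + q.2.2 2 * sin (π * q.1) : ℝ) : ℂ) +
    ((-(q.2.2 0 * sin (2 * π * q.2.1)) + q.2.2 1 * cos (2 * π * q.2.1) : ℝ) : ℂ) * Complex.I := by
    funext q
    rw [← Complex.mk_eq_add_mul_I]
    rfl
  rw [h]
  refine (Complex.continuous_ofReal.comp ?_).add ((Complex.continuous_ofReal.comp ?_).mul continuous_const)
  · fun_prop
  · fun_prop

theorem PP_continuous : Continuous (PP : (Dir m → ℝ) → Fin m → Fin 3 → ℝ) := by
  refine continuous_pi fun i => continuous_pi fun j => ?_
  fin_cases j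
  · show Continuous fun x : Dir m → ℝ => sin (π * x (rr i)) * cos (2 * π * x (ph i))
    fun_prop
  · show Continuous fun x : Dir m → ℝ => sin (π * x (rr i)) * sin (2 * π * x (ph i))
    fun_prop
  · show Continuous fun x : Dir m → ℝ => -cos (π * x (rr i))
    fun_prop

theorem arg_div_of_re_pos {z z' : ℂ} (hz : 0 < z.re) (hz' : 0 < z'.re) :
    (z / z').arg = z.arg - z'.arg := by
  have h0 : z ≠ 0 := fun h => by rw [h] at hz; simp at hz
  have h0' : z' ≠ 0 := fun h => by rw [h] at hz'; simp at hz'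
  have a1 := (abs_lt.mp (Complex.abs_arg_lt_pi_div_two_iff.mpr (Or.inl hz)))
  have a2 := (abs_lt.mp (Complex.abs_arg_lt_pi_div_two_iff.mpr (Or.inl hz')))
  have hne : z'.arg ≠ π := by
    intro h
    rw [h] at a2
    have := pi_pos
    linarith [a2.2]
  have hinv : (z'⁻¹).arg = - z'.arg := by rw [Complex.arg_inv, if_neg hne]
  rw [div_eq_mul_inv, (Complex.arg_mul_eq_add_arg_iff h0 (inv_ne_zero h0')).mpr, hinv]
  · ring
  · rw [hinv]
    constructor
    · linarith [a1.1, a2.2]
    · linarith [a1.2, a2.1]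

/-- scaled point -/
noncomputable def sc (N : ℕ) (x : Dir m → ℤ) : Dir m → ℝ := fun c => (x c : ℝ) / N

section Main

variable (V : Fin m → (Fin m → Fin 3 → ℝ) → Fin 3 → ℝ)

/-- the complex function of the k-th component -/
noncomputable def ss (k : Fin m) (x : Dir m → ℝ) : ℂ :=
  fr (x (rr k)) (x (ph k)) (V k (PP x))

noncomputable def SG (N : ℕ) (k : Fin m) (x : Dir m → ℤ) : ℂ := ss V k (sc N x)

/-- the cochain -/
noncomputable def AA (N : ℕ) (k : Fin m) : Dir m → (Dir m → ℤ) → ℝ := fun d x =>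
  if d = ph k ∧ x (rr k) = 0 then -(1 / (N : ℝ))
  else if d = ph k ∧ x (rr k) = N then 1 / (N : ℝ)
  else (SG V N k (x + e d) / SG V N k x).arg / (2 * π)

variable {V}

theorem SG_per {N : ℕ} [NeZero N] (k j : Fin m) (x : Dir m → ℤ) :
    SG V N k (x + (N : ℤ) • e (ph j)) = SG V N k x := by
  have hN : (N : ℝ) ≠ 0 := by exact_mod_cast NeZero.ne N
  have h1 : ∀ i, sc N (x + (N : ℤ) • e (ph j)) (rr i) = sc N x (rr i) := by
    intro i
    simp [sc, e_ne (rr_ne_ph i j)]
  have h2 : ∀ i, sc N (x + (N : ℤ) • e (ph j)) (ph i) = sc N x (ph i) + if i = j then 1 else 0 := by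
    intro i
    by_cases h : i = j
    · subst h
      simp [sc, e_self]
      field_simp
    · have : ph i ≠ ph j := fun h' => h (ph_inj h')
      simp [sc, e_ne this, h]
  have hP : PP (sc N (x + (N : ℤ) • e (ph j))) = PP (sc N x) := by
    funext i
    simp only [PP]
    rw [h1, h2]
    split_ifs
    · rw [pp_per]
    · rw [add_zero]
  unfold SG ss
  rw [hP, h1, h2]
  split_ifs
  · rw [fr_per]
  · rw [add_zero]

theorem PP_face {N : ℕ} [NeZero N] (j : Fin m) (x : Dir m → ℤ)
    (hx : x (rr j) = 0 ∨ x (rr j) = (N : ℤ)) : PP (sc N (x + e (ph j))) = PP (sc N x) := by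
  have hN : (N : ℝ) ≠ 0 := by exact_mod_cast NeZero.ne N
  funext i
  simp only [PP]
  have h1 : sc N (x + e (ph j)) (rr i) = sc N x (rr i) := by simp [sc, e_ne (rr_ne_ph i j)]
  rw [h1]
  by_cases h : i = j
  · subst h
    rcases hx with hx | hx
    · have : sc N x (rr i) = 0 := by simp [sc, hx]
      rw [this]; exact pp_zero _ _
    · have : sc N x (rr i) = 1 := by simp [sc, hx]
      rw [this]; exact pp_one _ _
  · have hne : ph i ≠ ph j := fun h' => h (ph_inj h')
    have h2 : sc N (x + e (ph j)) (ph i) = sc N x (ph i) := by simp [sc, e_ne hne]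
    rw [h2]

theorem SG_face_ne {N : ℕ} [NeZero N] {k j : Fin m} (hkj : k ≠ j) (x : Dir m → ℤ)
    (hx : x (rr j) = 0 ∨ x (rr j) = (N : ℤ)) : SG V N k (x + e (ph j)) = SG V N k x := by
  unfold SG ss
  have h1 : sc N (x + e (ph j)) (rr k) = sc N x (rr k) := by simp [sc, e_ne (rr_ne_ph k j)]
  have hne : ph k ≠ ph j := fun h' => hkj (ph_inj h')
  have h2 : sc N (x + e (ph j)) (ph k) = sc N x (ph k) := by simp [sc, e_ne hne]
  rw [PP_face j x hx, h1, h2]

theorem SG_face0 {N : ℕ} [NeZero N] (k : Fin m) (x : Dir m → ℤ) (hx : x (rr k) = 0) :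
    SG V N k (x + e (ph k)) = Complex.exp (-(2 * π * (1 / N) : ℝ) * Complex.I) * SG V N k x := by
  unfold SG ss
  have h0 : sc N x (rr k) = 0 := by simp [sc, hx]
  have h1 : sc N (x + e (ph k)) (rr k) = 0 := by simp [sc, e_ne (rr_ne_ph k k), hx]
  have h2 : sc N (x + e (ph k)) (ph k) = sc N x (ph k) + 1 / N := by
    simp [sc, e_self]; ring
  rw [PP_face k x (Or.inl hx), h1, h2, h0, fr_pole0]

theorem SG_faceN {N : ℕ} [NeZero N] (k : Fin m) (x : Dir m → ℤ) (hx : x (rr k) = (N : ℤ)) :
    SG V N k (x + e (ph k)) = Complex.exp ((2 * π * (1 / N) : ℝ) * Complex.I) * SG V N k x := by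
  have hN : (N : ℝ) ≠ 0 := by exact_mod_cast NeZero.ne N
  unfold SG ss
  have h0 : sc N x (rr k) = 1 := by simp [sc, hx]
  have h1 : sc N (x + e (ph k)) (rr k) = 1 := by
    simp [sc, e_ne (rr_ne_ph k k), hx]
  have h2 : sc N (x + e (ph k)) (ph k) = sc N x (ph k) + 1 / N := by
    simp [sc, e_self]; ring
  rw [PP_face k x (Or.inr hx), h1, h2, h0, fr_pole1]

theorem good_AA {N : ℕ} [NeZero N] (k : Fin m) : Good N (k : ℕ) (AA V N k) := by
  have hNz : (N : ℤ) ≠ 0 := by exact_mod_cast NeZero.ne N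
  constructor
  · intro d x j
    unfold AA
    have h1 : (x + (N : ℤ) • e (ph j)) (rr k) = x (rr k) := by simp [e_ne (rr_ne_ph k j)]
    rw [h1, add_right_comm x _ (e d), SG_per, SG_per]
  · intro j d x hx hd
    unfold AA
    have h1 : (x + e (ph j)) (rr k) = x (rr k) := by simp [e_ne (rr_ne_ph k j)]
    rw [h1]
    by_cases hkj : k = j
    · subst hkj
      by_cases hdk : d = ph k
      · subst hdk
        rcases hx with hx | hx
        · simp [hx]
        · simp [hx, hNz]
      · rw [if_neg (fun h => hdk h.1), if_neg (fun h => hdk h.1), if_neg (fun h => hdk h.1),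
          if_neg (fun h => hdk h.1), add_right_comm]
        have h2 : (x + e d) (rr k) = x (rr k) := by simp [e_ne hd.symm]
        rcases hx with hx | hx
        · rw [SG_face0 k x hx, SG_face0 k (x + e d) (by rw [h2]; exact hx),
            mul_div_mul_left _ _ (Complex.exp_ne_zero _)]
        · rw [SG_faceN k x hx, SG_faceN k (x + e d) (by rw [h2]; exact hx),
            mul_div_mul_left _ _ (Complex.exp_ne_zero _)]
    · rw [add_right_comm, SG_face_ne hkj x hx,
        SG_face_ne hkj (x + e d) (by simpa [e_ne hd.symm] using hx)]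
  · intro j x hx
    unfold AA
    by_cases hjk : j = k
    · subst hjk
      simp [hx]
    · have h1 : (j : ℕ) ≠ k := fun h => hjk (Fin.ext h)
      have h2 : ph j ≠ ph k := fun h => hjk (ph_inj h)
      rw [if_neg (fun h => h2 h.1), if_neg (fun h => h2 h.1), if_neg h1,
        SG_face_ne (Ne.symm hjk) x (Or.inl hx)]
      by_cases h3 : SG V N k x = 0
      · simp [h3]
      · rw [div_self h3]; simp
  · intro j x hx
    unfold AA
    by_cases hjk : j = k
    · subst hjk
      simp [hx, NeZero.ne N]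
    · have h1 : (j : ℕ) ≠ k := fun h => hjk (Fin.ext h)
      have h2 : ph j ≠ ph k := fun h => hjk (ph_inj h)
      rw [if_neg (fun h => h2 h.1), if_neg (fun h => h2 h.1), if_neg h1,
        SG_face_ne (Ne.symm hjk) x (Or.inr hx)]
      by_cases h3 : SG V N k x = 0
      · simp [h3]
      · rw [div_self h3]; simp

theorem AA_eq {N : ℕ} [NeZero N] (hN3 : 3 ≤ N) (k : Fin m) (d : Dir m) (x : Dir m → ℤ)
    (h : SG V N k x ≠ 0) : AA V N k d x = (SG V N k (x + e d) / SG V N k x).arg / (2 * π) := by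
  have hN : (0 : ℝ) < N := by exact_mod_cast Nat.pos_of_ne_zero (NeZero.ne N)
  have hN3' : (3 : ℝ) ≤ N := by exact_mod_cast hN3
  have hpi := pi_pos
  have hle : 2 * π * (1 / (N : ℝ)) < π := by
    rw [mul_one_div, div_lt_iff₀ hN]; nlinarith
  have hpos : 0 < 2 * π * (1 / (N : ℝ)) := by positivity
  unfold AA
  split_ifs with h1 h2
  · obtain ⟨rfl, hx⟩ := h1
    rw [SG_face0 k x hx, mul_div_assoc, div_self h, mul_one, ← Complex.ofReal_neg,
      Complex.arg_exp_mul_I, (toIocMod_eq_self _).mpr]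
    · field_simp
    · constructor
      · linarith
      · linarith
  · obtain ⟨rfl, hx⟩ := h2
    rw [SG_faceN k x hx, mul_div_assoc, div_self h, mul_one,
      Complex.arg_exp_mul_I, (toIocMod_eq_self _).mpr]
    · field_simp
    · constructor
      · linarith
      · linarith
  · rfl

/-- There is no nowhere vanishing continuous tangent vector field on a product of 2-spheres. -/
theorem no_field (V : Fin m → (Fin m → Fin 3 → ℝ) → Fin 3 → ℝ)
    (hc : ∀ k, Continuous (V k))
    (ht : ∀ k P, (∀ i, ∑ j, P i j * P i j = 1) → ∑ j, P k j * V k P j = 0)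
    (hn : ∀ P, (∀ i, ∑ j, P i j * P i j = 1) → ∃ k, V k P ≠ 0) : False := by
  have hcs : ∀ k, Continuous (ss V k) := fun k => by
    have : ss V k = (fun q : ℝ × ℝ × (Fin 3 → ℝ) => fr q.1 q.2.1 q.2.2) ∘
      (fun x => (x (rr k), x (ph k), V k (PP x))) := rfl
    rw [this]
    refine fr_continuous.comp ?_
    refine (continuous_apply _).prodMk ((continuous_apply _).prodMk ?_)
    exact (hc k).comp PP_continuous
  have hns : ∀ x, ∃ k, ss V k x ≠ 0 := by
    intro x
    obtain ⟨k, hk⟩ := hn (PP x) (fun i => pp_norm _ _)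
    refine ⟨k, fun h => hk ?_⟩
    exact fr_zero (ht k (PP x) (fun i => pp_norm _ _)) h
  set K : Set (Dir m → ℝ) := Set.univ.pi (fun _ => Set.Icc (0 : ℝ) 1) with hK
  have hKc : IsCompact K := isCompact_univ_pi (fun _ => isCompact_Icc)
  have hKne : K.Nonempty := ⟨fun _ => 0, fun _ _ => ⟨le_refl _, zero_le_one⟩⟩
  have hgc : Continuous (fun x => ∑ k, ‖ss V k x‖) :=
    continuous_finsetSum _ fun k _ => (hcs k).norm
  obtain ⟨x0, hx0, hmin⟩ := hKc.exists_isMinOn hKne hgc.continuousOn
  set δ := ∑ k, ‖ss V k x0‖ with hδ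
  have hδpos : 0 < δ := by
    obtain ⟨k, hk⟩ := hns x0
    have h1 : ‖ss V k x0‖ ≤ δ := Finset.single_le_sum (f := fun k => ‖ss V k x0‖)
      (fun i _ => norm_nonneg _) (Finset.mem_univ k)
    exact lt_of_lt_of_le (norm_pos_iff.mpr hk) h1
  -- some component is large
  have hbig : ∀ x ∈ K, ∃ k, δ / (m + 1) < ‖ss V k x‖ := by
    intro x hx
    by_contra hcon
    push Not at hcon
    have h1 : δ ≤ ∑ k, ‖ss V k x‖ := hmin hx
    have h2 : ∑ k, ‖ss V k x‖ ≤ ∑ _k : Fin m, δ / (m + 1) := Finset.sum_le_sum fun k _ => hcon k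
    rw [Finset.sum_const, Finset.card_univ, Fintype.card_fin, nsmul_eq_mul] at h2
    have h3 : (m : ℝ) * (δ / (m + 1)) < δ := by
      rw [mul_div_assoc', div_lt_iff₀ (by positivity)]
      nlinarith
    linarith
  -- uniform continuity
  have huc : ∀ k, ∃ η > 0, ∀ x ∈ K, ∀ y ∈ K, dist x y < η → dist (ss V k x) (ss V k y) < δ / (m + 1) := by
    intro k
    have := Metric.uniformContinuousOn_iff.mp (hKc.uniformContinuousOn_of_continuous
      (hcs k).continuousOn) (δ / (m + 1)) (by positivity)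
    exact this
  choose η hη hu using huc
  obtain ⟨η0, hη0, hη0'⟩ : ∃ η0 > 0, ∀ k, η0 ≤ η k := by
    rcases Nat.eq_zero_or_pos m with hm | hm
    · subst hm
      exact ⟨1, one_pos, fun k => k.elim0⟩
    · have : Nonempty (Fin m) := ⟨⟨0, hm⟩⟩
      obtain ⟨k0, hk0⟩ := Finite.exists_min η
      exact ⟨η k0, hη k0, hk0⟩
  obtain ⟨N0, hN0⟩ := exists_nat_gt (1 / η0)
  set N := max N0 3 with hNdef
  have hN3 : 3 ≤ N := le_max_right _ _
  have : NeZero N := ⟨by omega⟩
  have hNpos : (0 : ℝ) < N := by exact_mod_cast (by omega : 0 < N)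
  have hNη : 1 / (N : ℝ) < η0 := by
    have h1 : (N0 : ℝ) ≤ N := by exact_mod_cast le_max_left _ _
    have h2 : 1 / η0 < (N : ℝ) := lt_of_lt_of_le hN0 h1
    rw [div_lt_iff₀ hη0] at h2
    rw [div_lt_iff₀ hNpos]
    linarith
  set A : ℕ → Dir m → (Dir m → ℤ) → ℝ := fun k => if h : k < m then AA V N ⟨k, h⟩ else 0 with hA
  obtain ⟨x, hx⟩ := discrete (N := N) (A := A) (by
    intro k hk
    simp only [hA, dif_pos hk]
    exact good_AA ⟨k, hk⟩)
  have hscK : ∀ y : Dir m → ℤ, (∀ c, y c = cst x c ∨ y c = cst x c + 1) → sc N y ∈ K := by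
    intro y hy c _
    have h1 : (x c : ℕ) < N := (x c).2
    have h2 : (0 : ℤ) ≤ y c := by
      rcases hy c with h | h <;> rw [h] <;> simp only [cst] <;> omega
    have h3 : y c ≤ (N : ℤ) := by
      rcases hy c with h | h <;> rw [h] <;> simp only [cst] <;> omega
    constructor
    · exact div_nonneg (by exact_mod_cast h2) hNpos.le
    · rw [sc, div_le_one hNpos]; exact_mod_cast h3
  obtain ⟨k, hk⟩ := hbig (sc N (cst x)) (hscK _ (fun c => Or.inl rfl))
  obtain ⟨y, d, d', hne, hy, hyd, hyd', hcurv⟩ := hx k k.2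
  apply hcurv
  -- all values in the cube are close to the value at x
  set z0 := SG V N k (cst x) with hz0
  have hz0' : z0 ≠ 0 := by
    rw [← norm_pos_iff]
    exact lt_trans (by positivity) hk
  have hcube : ∀ y : Dir m → ℤ, (∀ c, y c = cst x c ∨ y c = cst x c + 1) →
      0 < (SG V N k y / z0).re := by
    intro y hy
    have hd : dist (sc N y) (sc N (cst x)) ≤ 1 / N := by
      rw [dist_pi_le_iff (by positivity)]
      intro c
      rw [Real.dist_eq, sc, sc, ← sub_div, abs_div, abs_of_pos hNpos]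
      refine div_le_div_of_nonneg_right ?_ hNpos.le
      rcases hy c with h | h
      · rw [h]; simp
      · rw [h]; push_cast; simp
    have h1 := hu k _ (hscK y hy) _ (hscK _ (fun c => Or.inl rfl))
      (lt_of_le_of_lt hd (lt_of_lt_of_le hNη (hη0' k)))
    have h2 : ‖SG V N k y - z0‖ < ‖z0‖ := by
      rw [← dist_eq_norm]
      exact lt_trans h1 hk
    have h3 : ‖SG V N k y / z0 - 1‖ < 1 := by
      have : SG V N k y / z0 - 1 = (SG V N k y - z0) / z0 := by field_simp
      rw [this, norm_div, div_lt_one (norm_pos_iff.mpr hz0')]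
      exact h2
    have h4 := Complex.abs_re_le_norm (SG V N k y / z0 - 1)
    have h5 : (SG V N k y / z0 - 1).re = (SG V N k y / z0).re - 1 := by simp
    rw [h5] at h4
    have := (abs_le.mp (le_trans h4 h3.le)).1
    have h6 := (abs_lt.mp (lt_of_le_of_lt h4 h3)).1
    linarith
  have hAA : ∀ (y : Dir m → ℤ) (d : Dir m), (∀ c, y c = cst x c ∨ y c = cst x c + 1) →
      (∀ c, (y + e d) c = cst x c ∨ (y + e d) c = cst x c + 1) →
      A k d y = ((SG V N k (y + e d) / z0).arg - (SG V N k y / z0).arg) / (2 * π) := by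
    intro y d hy hyd
    have hk' : A k = AA V N k := by simp only [hA, dif_pos k.2]
    have h1 := hcube y hy
    have h2 := hcube _ hyd
    have hy0 : SG V N k y ≠ 0 := by
      intro h; rw [h] at h1; simp at h1
    rw [hk', AA_eq hN3 k d y hy0, ← arg_div_of_re_pos h2 h1, div_div_div_cancel_right₀ hz0']
  have c1 : ∀ c, (y + e d) c = cst x c ∨ (y + e d) c = cst x c + 1 := by
    intro c
    by_cases hcd : c = d
    · subst hcd; right; simp [e_self, hyd]
    · simpa [e_ne hcd] using hy c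
  have c2 : ∀ c, (y + e d') c = cst x c ∨ (y + e d') c = cst x c + 1 := by
    intro c
    by_cases hcd : c = d'
    · subst hcd; right; simp [e_self, hyd']
    · simpa [e_ne hcd] using hy c
  have c3 : ∀ c, (y + e d + e d') c = cst x c ∨ (y + e d + e d') c = cst x c + 1 := by
    intro c
    by_cases hcd : c = d
    · subst hcd; right; simp [e_self, e_ne hne, hyd]
    · by_cases hcd' : c = d'
      · subst hcd'; right; simp [e_self, e_ne hcd, hyd']
      · simpa [e_ne hcd, e_ne hcd'] using hy c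
  have c4 : ∀ c, (y + e d' + e d) c = cst x c ∨ (y + e d' + e d) c = cst x c + 1 := by
    rw [add_right_comm]; exact c3
  unfold curv
  rw [hAA (y + e d) d' c1 c3, hAA y d' hy c2, hAA (y + e d') d c2 c4, hAA y d hy c1,
    add_right_comm y (e d') (e d)]
  ring

end Main

end Pool.Agent.Helper878.PM
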