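import Mathlib
import Pool.Agent.Helper878.PM.Alg
import Pool.Agent.Helper878.PM.Field

set_option autoImplicit false

namespace Pool.Agent.Helper878.PM

variable {m : ℕ}

/-- truncation -/
noncomputable def cl (t : ℝ) : ℝ := max (-1) (min 1 t)

theorem cl_abs (t : ℝ) : |cl t| ≤ 1 := by
  rw [abs_le]
  constructor
  · exact le_max_left _ _
  · exact max_le (by norm_num) (min_le_left _ _)

theorem cl_eq {t : ℝ} (h : t * t ≤ 1) : cl t = t := by
  have h1 : -1 ≤ t := by nlinarith
  have h2 : t ≤ 1 := by nlinarith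
  rw [cl, min_eq_right h2, max_eq_right h1]

theorem cl_cont : Continuous cl := by unfold cl; fun_prop

/-- extended coordinates -/
noncomputable def Pe (P : Fin m → Fin 3 → ℝ) (k : ℕ) (j : Fin 3) : ℝ :=
  if h : k < m then cl (P ⟨k, h⟩ j) else (if j = 0 then 1 else 0)

theorem Pe_abs (P : Fin m → Fin 3 → ℝ) (k : ℕ) (j : Fin 3) : |Pe P k j| ≤ 1 := by
  unfold Pe
  split_ifs
  · exact cl_abs _
  · simp
  · simp

theorem Pe_cont (k : ℕ) (j : Fin 3) : Continuous (fun P : Fin m → Fin 3 → ℝ => Pe P k j) := by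
  unfold Pe
  split_ifs with h
  · exact cl_cont.comp ((continuous_apply j).comp (continuous_apply _))
  · exact continuous_const
  · exact continuous_const

theorem Pe_eq {P : Fin m → Fin 3 → ℝ} (hP : ∀ i, ∑ j, P i j * P i j = 1) {k : ℕ} (h : k < m)
    (j : Fin 3) : Pe P k j = P ⟨k, h⟩ j := by
  rw [Pe, dif_pos h, cl_eq]
  rw [← hP ⟨k, h⟩]
  exact Finset.single_le_sum (f := fun j => P ⟨k, h⟩ j * P ⟨k, h⟩ j)
    (fun i _ => mul_self_nonneg _) (Finset.mem_univ j)

theorem Pe_norm {P : Fin m → Fin 3 → ℝ} (hP : ∀ i, ∑ j, P i j * P i j = 1) (k : ℕ) :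
    ∑ j, Pe P k j * Pe P k j = 1 := by
  by_cases h : k < m
  · rw [← hP ⟨k, h⟩]
    refine Finset.sum_congr rfl fun j _ => ?_
    rw [Pe_eq hP h]
  · simp [Pe, h]

/-- values of the parameters -/
noncomputable def vs (P : Fin m → Fin 3 → ℝ) (k : ℕ) (i : ℕ) : ℝ :=
  if i = 0 then (1 - Pe P (k + 1) 0 / 2) * Pe P k 0 / 4
  else if i = 1 then (1 - Pe P (k + 1) 0 / 2) * Pe P k 1 / 4
  else if i = 2 then (1 - Pe P (k + 1) 0 / 2) * Pe P k 2 / 4
  else if i = 3 then Pe P (k + 1) 1 / 16
  else Pe P (k + 1) 2 / 2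

theorem vs_cont (k i : ℕ) : Continuous (fun P : Fin m → Fin 3 → ℝ => vs P k i) := by
  have := fun k j => Pe_cont (m := m) k j
  unfold vs
  split_ifs <;> fun_prop

theorem abs_aux {a b : ℝ} (ha : |a| ≤ 1) (hb : |b| ≤ 1) : -1 < (1 - a / 2) * b / 4 := by
  rw [abs_le] at ha hb
  nlinarith [ha.1, ha.2, hb.1, hb.2]

theorem vs_gt (P : Fin m → Fin 3 → ℝ) (k i : ℕ) : -1 < vs P k i := by
  unfold vs
  have h := fun k j => Pe_abs P k j
  split_ifs
  · exact abs_aux (h _ _) (h _ _)
  · exact abs_aux (h _ _) (h _ _)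
  · exact abs_aux (h _ _) (h _ _)
  · have := (abs_le.mp (h (k + 1) 1)).1; linarith
  · have := (abs_le.mp (h (k + 1) 2)).1; linarith

/-- values of the variables -/
noncomputable def val (P : Fin m → Fin 3 → ℝ) : Vr → ℝ
  | none => 8
  | some (Sum.inl j) => Pe P 0 j / 2
  | some (Sum.inr (_, true)) => 0
  | some (Sum.inr (n, false)) => vs P (n / 5) (n % 5)

theorem val_cont (v : Vr) : Continuous (fun P : Fin m → Fin 3 → ℝ => val P v) := by
  rcases v with (_ | (j | ⟨n, _ | _⟩))
  · exact continuous_const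
  · exact (Pe_cont 0 j).div_const 2
  · exact vs_cont _ _
  · exact continuous_const

theorem val_gt (P : Fin m → Fin 3 → ℝ) (v : Vr) : 0 < 1 + val P v := by
  rcases v with (_ | (j | ⟨n, _ | _⟩))
  · simp only [val]; norm_num
  · have := (abs_le.mp (Pe_abs P 0 j)).1
    simp only [val]; linarith
  · have := vs_gt P (n / 5) (n % 5)
    simp only [val]; linarith
  · simp [val]

noncomputable def evA (P : Fin m → Fin 3 → ℝ) : AG →* ℝ :=
  (Units.coeHom ℝ).comp (Abelianization.lift
    (FreeGroup.lift (fun v => Units.mk0 (1 + val P v) (val_gt P v).ne')))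

/-- evaluation -/
noncomputable def ev (P : Fin m → Fin 3 → ℝ) : RR →+* ℝ :=
  (MonoidAlgebra.lift ℤ ℝ AG (evA P)).toRingHom

theorem ev_u (P : Fin m → Fin 3 → ℝ) (a : AG) : ev P (u a) = evA P a := by
  simp [ev, u]

theorem ev_X (P : Fin m → Fin 3 → ℝ) (v : Vr) : ev P (X v) = val P v := by
  rw [X, map_sub, ev_u, map_one]
  simp [evA]

theorem evA_cont (a : AG) : Continuous (fun P : Fin m → Fin 3 → ℝ => evA P a) := by
  obtain ⟨w, rfl⟩ := QuotientGroup.mk_surjective a
  change Continuous (fun P : Fin m → Fin 3 → ℝ => evA P (Abelianization.of w))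
  induction w using FreeGroup.induction_on with
  | C1 => simp only [map_one]; exact continuous_const
  | of v =>
    have : (fun P : Fin m → Fin 3 → ℝ => evA P (Abelianization.of (FreeGroup.of v)))
        = fun P => 1 + val P v := by
      funext P; simp [evA]
    change Continuous (fun P : Fin m → Fin 3 → ℝ => evA P (Abelianization.of (FreeGroup.of v)))
    rw [this]
    exact continuous_const.add (val_cont v)
  | inv_of v ih =>
    have : (fun P : Fin m → Fin 3 → ℝ => evA P (Abelianization.of (FreeGroup.of v)⁻¹))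
        = fun P => (1 + val P v)⁻¹ := by
      funext P; simp [evA]
    change Continuous (fun P : Fin m → Fin 3 → ℝ => evA P (Abelianization.of (FreeGroup.of v)⁻¹))
    rw [this]
    exact (continuous_const.add (val_cont v)).inv₀ (fun P => (val_gt P v).ne')
  | mul a b ha hb => simp only [map_mul]; exact ha.mul hb

theorem ev_cont (r : RR) : Continuous (fun P : Fin m → Fin 3 → ℝ => ev P r) := by
  induction r using MonoidAlgebra.induction_linear with
  | zero => simp only [map_zero]; exact continuous_const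
  | add r s hr hs => simp only [map_add]; exact hr.add hs
  | single a n =>
    simp only [single_eq_zsmul, map_zsmul, ev_u]
    exact (evA_cont a).const_smul n

theorem val_et (P : Fin m → Fin 3 → ℝ) (k : ℕ) (j : Fin 3) :
    ev P (et k j) = (1 - Pe P (k + 1) 0 / 2) * Pe P k j / 4 := by
  rw [et, ev_X]
  have h1 : (5 * k + (j : ℕ)) / 5 = k := by have := j.2; omega
  have h2 : (5 * k + (j : ℕ)) % 5 = j := by have := j.2; omega
  show vs P ((5 * k + (j : ℕ)) / 5) ((5 * k + (j : ℕ)) % 5) = _
  rw [h1, h2]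
  fin_cases j <;> simp [vs]

theorem val_om (P : Fin m → Fin 3 → ℝ) (k : ℕ) : ev P (om k) = Pe P (k + 1) 1 / 16 := by
  rw [om, ev_X]
  have h1 : (5 * k + 3) / 5 = k := by omega
  have h2 : (5 * k + 3) % 5 = 3 := by omega
  show vs P ((5 * k + 3) / 5) ((5 * k + 3) % 5) = _
  rw [h1, h2]
  simp [vs]

theorem val_vv (P : Fin m → Fin 3 → ℝ) (k : ℕ) : ev P (vv k) = Pe P (k + 1) 2 / 2 := by
  rw [vv, ev_X]
  have h1 : (5 * k + 4) / 5 = k := by omega
  have h2 : (5 * k + 4) % 5 = 4 := by omega
  show vs P ((5 * k + 4) / 5) ((5 * k + 4) % 5) = _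
  rw [h1, h2]
  simp [vs]

theorem ev_z {P : Fin m → Fin 3 → ℝ} (hP : ∀ i, ∑ j, P i j * P i j = 1) :
    ∀ k j, ev P (z k j) = Pe P k j / 2
  | 0, j => by
    show ev P (X (vg j)) = _
    rw [ev_X]; rfl
  | (k + 1), j => by
    have ih := ev_z hP k
    have hth : ev P (X vth) = 8 := by rw [ev_X]; rfl
    fin_cases j
    · show ev P (z (k + 1) 0) = Pe P (k + 1) 0 / 2
      rw [z_succ0, map_sub, map_one, map_mul, map_sum, hth]
      have h1 : ∑ i, ev P (et k i * z k i) = (1 - Pe P (k + 1) 0 / 2) / 8 *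
          ∑ i, Pe P k i * Pe P k i := by
        rw [Finset.mul_sum]
        refine Finset.sum_congr rfl fun i _ => ?_
        rw [map_mul, ih, val_et]; ring
      rw [h1, Pe_norm hP]; ring
    · show ev P (z (k + 1) 1) = Pe P (k + 1) 1 / 2
      rw [z_succ1, map_mul, hth, val_om]; ring
    · show ev P (z (k + 1) 2) = Pe P (k + 1) 2 / 2
      rw [z_succ2, val_vv]

/-- block number -/
def blk : YY → ℕ
  | Sum.inl none => 0
  | Sum.inl (some (Sum.inl _)) => 0
  | Sum.inl (some (Sum.inr (k, _))) => k + 1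
  | Sum.inr k => k + 1

theorem blk_eb (k : ℕ) (j : Fin 3) : blk (eb k j) = k := by
  cases k with
  | zero => rfl
  | succ k => fin_cases j <;> rfl

theorem cases_YY (y : YY) : y = Sum.inl vth ∨ ∃ k j, y = eb k j := by
  rcases y with ((_ | (j | ⟨l, _ | _⟩)) | l)
  · left; rfl
  · right; exact ⟨0, j, rfl⟩
  · right; exact ⟨l + 1, 0, rfl⟩
  · right; exact ⟨l + 1, 2, rfl⟩
  · right; exact ⟨l + 1, 1, rfl⟩

/-- No unimodular element. -/
theorem no_unimod (q : YY →₀ RR) (h0 : q (Sum.inl vth) = 0) (hphi : phi q = 0)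
    (L : (YY →₀ RR) →ₗ[RR] RR) (hL : L q = 1) : False := by
  obtain ⟨m, hm⟩ : ∃ m, ∀ k, m ≤ k → ∀ j, q (eb k j) = 0 := by
    refine ⟨q.support.sup blk + 1, fun k hk j => ?_⟩
    by_contra hne
    have h1 : blk (eb k j) ≤ q.support.sup blk := Finset.le_sup (Finsupp.mem_support_iff.mpr hne)
    rw [blk_eb] at h1
    omega
  refine no_field (m := m) (fun k P j => ev P (q (eb k j)) + 2 * ev P (q (Sum.inr (k : ℕ))) * Pe P k j)
    ?_ ?_ ?_
  · intro k
    refine continuous_pi fun j => ?_
    exact (ev_cont _).add ((continuous_const.mul (ev_cont _)).mul (Pe_cont _ _))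
  · intro k P hP
    have h1 := congrArg (ev P) (phi_coord q k)
    rw [hphi] at h1
    simp only [Finsupp.coe_zero, Pi.zero_apply, map_zero, map_add, map_sum, map_mul, ev_z hP] at h1
    have h2 := Pe_norm hP (k : ℕ)
    have h3 : ∀ j, P k j = Pe P k j := fun j => (Pe_eq hP k.2 j).symm
    calc ∑ j, P k j * (ev P (q (eb k j)) + 2 * ev P (q (Sum.inr (k : ℕ))) * Pe P k j)
        = 2 * (∑ j, ev P (q (eb k j)) * (Pe P k j / 2))
          + 2 * ev P (q (Sum.inr (k : ℕ))) * ∑ j, Pe P k j * Pe P k j := by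
          rw [Finset.mul_sum, Finset.mul_sum, ← Finset.sum_add_distrib]
          refine Finset.sum_congr rfl fun j _ => ?_
          rw [h3 j]; ring
      _ = 0 := by rw [h2]; linarith
  · intro P hP
    by_contra hcon
    push Not at hcon
    -- all evaluations vanish
    have hall : ∀ n k, m ≤ k + n → ∀ j, ev P (q (eb k j)) = 0 := by
      intro n
      induction n with
      | zero => intro k hk j; rw [hm k (by omega), map_zero]
      | succ n ih =>
        intro k hk j
        by_cases hkm : k < m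
        · have h1 := congrFun (hcon ⟨k, hkm⟩) j
          have h2 : ev P (q (Sum.inr k)) = 0 := ih (k + 1) (by omega) 1
          simp only [h2, mul_zero, zero_mul, add_zero] at h1
          exact h1
        · rw [hm k (by omega), map_zero]
    have hall' : ∀ y, ev P (q y) = 0 := by
      intro y
      rcases cases_YY y with rfl | ⟨k, j, rfl⟩
      · rw [h0, map_zero]
      · exact hall m k (by omega) j
    have h1 : L q = q.sum (fun y r => r * L (Finsupp.single y 1)) := by
      conv_lhs => rw [← Finsupp.sum_single q]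
      rw [map_finsuppSum]
      refine Finsupp.sum_congr fun y _ => ?_
      rw [← smul_eq_mul, ← map_smul, Finsupp.smul_single, smul_eq_mul, mul_one]
    have h2 := congrArg (ev P) h1
    rw [hL, map_one, map_finsuppSum] at h2
    have h3 : (q.sum fun y r => ev P (r * L (Finsupp.single y 1))) = 0 := by
      refine Finset.sum_eq_zero fun y _ => ?_
      simp only [map_mul, hall', zero_mul]
    rw [h3] at h2
    exact one_ne_zero h2

end Pool.Agent.Helper878.PM
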