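import Mathlib
import Pool.Agent.Helper878.PM.Obst

set_option autoImplicit false

namespace Pool.Agent.Helper878.PM

open scoped commutatorElement

/-- exponent vector -/
noncomputable def expo : AG →* Multiplicative (Vr →₀ ℤ) :=
  Abelianization.lift (FreeGroup.lift (fun v => Multiplicative.ofAdd (Finsupp.single v 1)))

theorem not_fg_AG : ¬ Group.FG AG := by
  intro h
  obtain ⟨S, hS, hfin⟩ := (Group.fg_iff).mp h
  -- a finite set of variables containing all supports
  have hfin' : (⋃ a ∈ S, (((expo a).toAdd.support : Finset Vr) : Set Vr)).Finite :=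
    hfin.biUnion (fun a _ => Finset.finite_toSet _)
  obtain ⟨v, hv⟩ := hfin'.exists_notMem
  have hker : ∀ a : AG, (expo a).toAdd v = 0 := by
    intro a
    let K : Subgroup AG :=
      { carrier := {a | (expo a).toAdd v = 0}
        one_mem' := by simp
        mul_mem' := by
          intro a b ha hb
          simp only [Set.mem_ofPred_eq] at ha hb ⊢
          rw [map_mul, toAdd_mul, Finsupp.add_apply, ha, hb, add_zero]
        inv_mem' := by
          intro a ha
          simp only [Set.mem_ofPred_eq] at ha ⊢
          rw [map_inv, toAdd_inv, Finsupp.neg_apply, ha, neg_zero] }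
    have hK : Subgroup.closure S ≤ K := by
      rw [Subgroup.closure_le]
      intro a ha
      show (expo a).toAdd v = 0
      by_contra hne
      apply hv
      simp only [Set.mem_iUnion]
      exact ⟨a, ha, by simpa using hne⟩
    rw [hS] at hK
    exact hK (Subgroup.mem_top a)
  have h1 := hker (Abelianization.of (FreeGroup.of v))
  simp [expo] at h1

theorem exists_over (a : AG) : ∃ x : PP', x.1.a = a := by
  have h : (⊤ : Subgroup AG) ≤ (PQ dd EE).map Aff.pr := by
    rw [← yy_gen (V := Vr) (B := ℕ), Subgroup.closure_le]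
    rintro _ ⟨y, rfl⟩
    refine ⟨⟨yy y, EE (Finsupp.single y 1)⟩, ?_, rfl⟩
    rw [SetLike.mem_coe, mem_PQ]
    exact ⟨by rw [dd_EE, hd_dd], EE_EE _⟩
  obtain ⟨x, hx, hxa⟩ := h (Subgroup.mem_top a)
  exact ⟨⟨x, hx⟩, hxa⟩

theorem not_fg : ¬ Group.FG PP' := by
  intro h
  apply not_fg_AG
  have hs : Function.Surjective (Aff.pr.comp (PQ dd EE).subtype : PP' →* AG) := fun a => by
    obtain ⟨x, hx⟩ := exists_over a
    exact ⟨x, hx⟩
  exact Group.fg_of_surjective hs

theorem countable_AG : Countable AG := by
  have : Function.Surjective (Abelianization.of : FreeGroup Vr →* AG) := QuotientGroup.mk_surjective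
  have h2 : Countable (FreeGroup Vr) := by
    have : Function.Surjective (FreeGroup.mk : List (Vr × Bool) → FreeGroup Vr) := Quot.mk_surjective
    exact this.countable
  exact this.countable

theorem countable_RR : Countable RR := by
  have := countable_AG
  exact (MonoidAlgebra.coeffEquiv (R := ℤ) (M := AG)).injective.countable

theorem countable_PP : Countable PP' := by
  have h1 := countable_AG
  have h2 := countable_RR
  have h3 : Countable (YY →₀ RR) := inferInstance
  have : Function.Injective (fun x : PP' => (x.1.a, x.1.v)) := by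
    intro x y h
    apply Subtype.ext
    simp only [Prod.mk.injEq] at h
    ext1
    · exact h.1
    · exact h.2
  exact this.countable

/-- Homomorphisms to metabelian groups kill the second derived subgroup. -/
theorem metab_le_ker {X : Type} {G : Type} [Group G] (hG : derivedSeries G 2 = ⊥)
    (f : FreeGroup X →* G) : derivedSeries (FreeGroup X) 2 ≤ f.ker := by
  have h := map_derivedSeries_le_derivedSeries f 2
  rw [hG] at h
  intro x hx
  rw [MonoidHom.mem_ker, ← Subgroup.mem_bot]
  exact h ⟨x, hx, rfl⟩

/-- The group is not free metabelian on any set. -/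
theorem not_free (S : Type) (e : PP' ≃* (FreeGroup S ⧸ derivedSeries (FreeGroup S) 2)) : False := by
  -- images of the free generators
  let p : S → PP' := fun x => e.symm (QuotientGroup.mk (FreeGroup.of x))
  have hclos : Subgroup.closure (Set.range p) = ⊤ := by
    rw [eq_top_iff]
    rintro y -
    obtain ⟨w, hw⟩ := QuotientGroup.mk_surjective (e y)
    have hy : y = e.symm (QuotientGroup.mk w) := by
      rw [hw]
      exact (e.symm_apply_apply y).symm
    rw [hy]
    clear hw hy
    let F : FreeGroup S →* PP' := e.symm.toMonoidHom.comp (QuotientGroup.mk' _)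
    have hF : ∀ w, F w ∈ Subgroup.closure (Set.range p) := by
      intro w
      induction w using FreeGroup.induction_on with
      | C1 => rw [map_one]; exact Subgroup.one_mem _
      | of v => exact Subgroup.subset_closure ⟨v, rfl⟩
      | inv_of v ih => rw [map_inv]; exact Subgroup.inv_mem _ ih
      | mul a b ha hb => rw [map_mul]; exact Subgroup.mul_mem _ ha hb
    exact hF w
  -- the special element
  have hpfm : (⟨yy (Sum.inl vth : YY), Finsupp.single (Sum.inl vth) 1⟩ : Aff AG (YY →₀ RR)) ∈ PQ dd EE := by
    rw [mem_PQ]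
    refine ⟨hd_dd _, EE_of_phi ?_⟩
    rw [phi_single, one_smul]
    rfl
  let pf : PP' := ⟨⟨yy (Sum.inl vth : YY), Finsupp.single (Sum.inl vth) 1⟩, hpfm⟩
  -- finitely many generators suffice
  obtain ⟨X0, hX0, hpf⟩ : ∃ X0 : Set S, X0.Finite ∧ pf ∈ Subgroup.closure (p '' X0) := by
    have h1 : ∀ y ∈ Subgroup.closure (Set.range p), ∃ X0 : Set S, X0.Finite ∧
        y ∈ Subgroup.closure (p '' X0) := by
      intro y hy
      induction hy using Subgroup.closure_induction with
      | mem y hy =>
        obtain ⟨x, rfl⟩ := hy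
        exact ⟨{x}, Set.finite_singleton x, Subgroup.subset_closure ⟨x, rfl, rfl⟩⟩
      | one => exact ⟨∅, Set.finite_empty, Subgroup.one_mem _⟩
      | mul a b _ _ ha hb =>
        obtain ⟨X1, h1, h1'⟩ := ha
        obtain ⟨X2, h2, h2'⟩ := hb
        refine ⟨X1 ∪ X2, h1.union h2, Subgroup.mul_mem _ ?_ ?_⟩
        · exact Subgroup.closure_mono (Set.image_mono Set.subset_union_left) h1'
        · exact Subgroup.closure_mono (Set.image_mono Set.subset_union_right) h2'
      | inv a _ ha =>
        obtain ⟨X1, h1, h1'⟩ := ha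
        exact ⟨X1, h1, Subgroup.inv_mem _ h1'⟩
    exact h1 pf (by rw [hclos]; exact Subgroup.mem_top _)
  -- a generator outside
  obtain ⟨x1, hx1⟩ : ∃ x1 : S, x1 ∉ X0 := by
    by_contra hcon
    push Not at hcon
    apply not_fg
    have hfin : (Set.univ : Set S).Finite := hX0.subset (fun x _ => hcon x)
    rw [Group.fg_iff]
    refine ⟨Set.range p, hclos, ?_⟩
    rw [← Set.image_univ]
    exact hfin.image p
  -- the derivation
  let η : FreeGroup S →* Aff AG RR :=
    FreeGroup.lift (fun x => ⟨(p x).1.a, by classical exact if x = x1 then 1 else 0⟩)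
  let ηb : (FreeGroup S ⧸ derivedSeries (FreeGroup S) 2) →* Aff AG RR :=
    QuotientGroup.lift _ η (metab_le_ker metab_Aff η)
  let δ : PP' →* Aff AG RR := ηb.comp e.toMonoidHom
  have hδp : ∀ x, δ (p x) = ⟨(p x).1.a, by classical exact if x = x1 then 1 else 0⟩ := by
    intro x
    have h1 : e (p x) = QuotientGroup.mk (FreeGroup.of x) := e.apply_symm_apply _
    show ηb (e (p x)) = _
    rw [h1]
    show η (FreeGroup.of x) = _
    simp [η]
  have hδa : ∀ y, (δ y).a = y.1.a := by
    have h1 : Aff.pr.comp δ = Aff.pr.comp (PQ dd EE).subtype := by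
      refine MonoidHom.eq_of_eqOn_dense hclos ?_
      rintro _ ⟨x, rfl⟩
      rw [MonoidHom.comp_apply, hδp]; rfl
    intro y
    exact DFunLike.congr_fun h1 y
  have hδf : (δ pf).v = 0 := by
    let K : Subgroup PP' :=
      { carrier := {y | (δ y).v = 0}
        one_mem' := by simp
        mul_mem' := by
          intro a b ha hb
          simp only [Set.mem_ofPred_eq] at ha hb ⊢
          rw [map_mul, Aff.mul_v, ha, hb]; simp
        inv_mem' := by
          intro a ha
          simp only [Set.mem_ofPred_eq] at ha ⊢
          rw [map_inv, Aff.inv_v, ha]; simp }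
    have hK : Subgroup.closure (p '' X0) ≤ K := by
      rw [Subgroup.closure_le]
      rintro _ ⟨x, hx, rfl⟩
      show (δ (p x)).v = 0
      rw [hδp]
      have : x ≠ x1 := fun h => hx1 (h ▸ hx)
      simp [this]
    exact hK hpf
  -- the linear functional
  let L : (YY →₀ RR) →ₗ[RR] RR :=
    Finsupp.linearCombination RR (fun y => (δ (rho EE_EE dd_EE (cP hd_dd y))).v)
  have hL : (Aff.map L).comp (PS dd).subtype = δ.comp (rho EE_EE dd_EE) := by
    refine hom_ext_PS yy_gen hd_dd ?_
    intro y
    rw [MonoidHom.comp_apply, MonoidHom.comp_apply]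
    ext1
    · rw [hδa]; rfl
    · show L (Finsupp.single y 1) = _
      simp [L]
  have hL' : ∀ y : PP', L y.1.v = (δ y).v := by
    intro y
    have h := congrArg Aff.v (DFunLike.congr_fun hL (Subgroup.inclusion PQ_le y))
    rw [MonoidHom.comp_apply, MonoidHom.comp_apply, rho_incl] at h
    exact h
  have hLf : L (Finsupp.single (Sum.inl vth) 1) = 0 := by
    have := hL' pf
    rw [hδf] at this
    exact this
  have hLp : L (p x1).1.v = 1 := by
    rw [hL', hδp]; simp
  -- the unimodular element
  refine no_unimod ((p x1).1.v - Finsupp.single (Sum.inl vth) ((p x1).1.v (Sum.inl vth))) ?_ ?_ L ?_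
  · simp
  · rw [map_sub, phi_of_EE (mem_PQ.mp (p x1).2).2, phi_single]
    have : phi0 (Sum.inl vth) = 0 := rfl
    rw [this]; simp
  · rw [map_sub, hLp]
    have : (Finsupp.single (Sum.inl vth) ((p x1).1.v (Sum.inl vth)) : YY →₀ RR)
        = (p x1).1.v (Sum.inl vth) • Finsupp.single (Sum.inl vth) 1 := by
      rw [Finsupp.smul_single, smul_eq_mul, mul_one]
    rw [this, map_smul, hLf]
    simp

end Pool.Agent.Helper878.PM
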